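import Pool.Agent.GRT.Sel

/-! # GRT CMB: the comb

PROOF of `exists_comb`. `exists_sel` gives `l, S, B₀`. Let `C = {w | ∃ b ∈ B₀, Jn H Sᶜ b w}` (a finset with classical decidability). Facts:
(c1) `C` is disjoint from `S` and from `l`; `B₀ ⊆ C`. (c2) `x ∈ C`, `H.Adj x y` gives `y ∈ C` or `y ∈ S`. (c3) every `B ∈ 𝓑` avoiding `S` is contained in `C`
(`B` and `B₀` touch and both avoid `S`). (c4) for `Z` with fewer than `2 h` elements there is `B ∈ 𝓑` avoiding `Z`.
TEETH. `lk_of_jn` with `X = l.toFinset`, `Y = S`, `D = univ \ C`, `n = h`: for `Z.card < h` choose (c4) `B' ∈ 𝓑` avoiding `S ∪ Z` (`< 2 h` elements), so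
`B' ⊆ C`; `Lnk` gives `p ∈ l`, `b ∈ B'` with `Jn H Zᶜ p b`. If `p ∈ S`: `x = y = p` (`Jn.refl`). Otherwise `Jn.exit` for `G = S ∪ C` (`p ∉ G`, `b ∈ G`): `u` joined to
`p` inside `Zᶜ \ G`, `H.Adj u w`, `w ∈ G \ Z`. `w ∉ C` (otherwise `u ∈ C ∪ S = G` by (c2)), so `w ∈ S`, and `p`, `w` are joined inside `Cᶜ \ Z`.
The linkage gives `T i` from `p i` to `s i ∈ S` with `T i ∩ l = {p i}`, `T i ∩ S = {s i}`, `T i ⊆ l ∪ Cᶜ ∪ S`, so `T i` is disjoint from `C`.
EXT. Let `X = s '' I`, `Y = s '' J` (disjoint, `s` is injective because the `T i` are disjoint, so both have `k` elements; `k ≤ h` since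
`I` is a subset of `Fin h`). `lk_of_jn` with `D = C`: let `Z.card < k`; suppose no `x ∈ X`, `y ∈ Y` are joined inside `E = (X ∪ C ∪ Y) \ Z`. Choose (c4)
`B' ∈ 𝓑` avoiding `S ∪ Z` (`< h + k ≤ 2 h`), `B' ⊆ C \ Z`, and `b ∈ B'`. Then `b` is not joined to `X` inside `E` or not joined to `Y` inside `E`; by
symmetry (write a lemma for one side) say `X`. Put `Z' = (S \ X) ∪ Z`: `Z'.card ≤ h - k + (k - 1) < h`, `B'` avoids `Z'`. `Lnk`: `p ∈ l`, `b' ∈ B'` with
`Jn H Z'ᶜ p b'`. Reverse it and apply `Jn.exit` to the set `G = Cᶜ` (`b' ∉ G`, `p ∈ G`): `u` joined to `b'` inside `Z'ᶜ ∩ C`, `H.Adj u w`, `w ∉ C`, `w ∉ Z'`; by (c2)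
`w ∈ S`, so `w ∈ X`, `w ∉ Z`. Hence `b'` is joined to `w ∈ X` inside `E`, and `b` is joined to `b'` inside `B' ⊆ E`: contradiction. -/

set_option autoImplicit false
set_option linter.unusedVariables false
set_option linter.unusedSectionVars false

namespace GRT

open SimpleGraph DWH

variable {W : Type} [Fintype W] [DecidableEq W]

/-- a comb: a path `l` (the spine) with `h` disjoint teeth `T i`, which start on the spine at `p i` and end at `s i`, and a set `C` disjoint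
from spine and teeth such that any two disjoint sets of ends of teeth of equal size are linked through `C` -/
structure Comb (H : SimpleGraph W) (h : ℕ) where
  l : List W
  nodup : l.Nodup
  chain : l.IsChain H.Adj
  T : Fin h → Finset W
  p : Fin h → W
  s : Fin h → W
  pth : ∀ i, Pth H (T i) (p i) (s i)
  tl : ∀ i, T i ∩ l.toFinset = {p i}
  dis : ∀ i j, i ≠ j → Disjoint (T i) (T j)
  C : Finset W
  CT : ∀ i, Disjoint C (T i)
  Cl : ∀ x ∈ l, x ∉ C
  ext : ∀ (I J : Finset (Fin h)), Disjoint I J → I.card = J.card →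
    Lk H (I.image s) (J.image s) C I.card

private theorem ext_side (H : SimpleGraph W) (𝓑 : Set (Set W)) (h : ℕ) (l : List W)
    (S C W0 Z : Finset W) (hLnk : Lnk H 𝓑 l.toFinset h) (hScard : S.card = h)
    (hCl : ∀ x ∈ l, x ∉ C) (c2 : ∀ x ∈ C, ∀ y, H.Adj x y → y ∈ C ∨ y ∈ S)
    (hWS : W0 ⊆ S) (hZ : Z.card < W0.card) (B' : Set W) (hB' : B' ∈ 𝓑)
    (hSB' : ∀ x ∈ S, x ∉ B') (hZB' : ∀ x ∈ Z, x ∉ B') (hB'C : ∀ b ∈ B', b ∈ C) :
    ∃ b ∈ B', ∃ w ∈ W0, Jn H {v | (v ∈ C ∨ v ∈ W0) ∧ v ∉ Z} b w := by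
  have hcard : ((S \ W0) ∪ Z).card < h := by
    have e1 := Finset.card_union_le (S \ W0) Z
    have e2 := Finset.card_sdiff_add_card_eq_card hWS
    omega
  obtain ⟨p, hp, b, hb, hJ⟩ := hLnk ((S \ W0) ∪ Z) hcard B' hB' (by
    intro x hx
    rcases Finset.mem_union.1 hx with hx | hx
    · exact hSB' x (Finset.mem_sdiff.1 hx).1
    · exact hZB' x hx)
  obtain ⟨u, w, hu, huw, hw1, hw2⟩ := Jn.exit (G := {v | v ∉ C}) hJ.symm
    (fun hc => hc (hB'C b hb)) (hCl p (List.mem_toFinset.1 hp))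
  have huC : u ∈ C := by
    by_contra hc
    exact hu.right.2 hc
  have hwS : w ∈ S := (c2 u huC w huw).resolve_left hw2
  have hwW : w ∈ W0 := by
    by_contra hc
    exact hw1 (Finset.mem_union_left _ (Finset.mem_sdiff.2 ⟨hwS, hc⟩))
  have hwZ : w ∉ Z := fun hc => hw1 (Finset.mem_union_right _ hc)
  refine ⟨b, hb, w, hwW, ?_⟩
  refine Jn.step (Jn.mono ?_ hu) huw ⟨Or.inr hwW, hwZ⟩
  rintro z ⟨hz1, hz2⟩
  refine ⟨Or.inl ?_, fun hc => hz1 (Finset.mem_union_right _ hc)⟩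
  by_contra hc
  exact hz2 hc

theorem exists_comb (H : SimpleGraph W) (𝓑 : Set (Set W)) (hB : Brm H 𝓑) (h : ℕ) (h1 : 1 ≤ h)
    (hN : Ordge 𝓑 (2 * h)) : Nonempty (Comb H h) := by
  classical
  obtain ⟨l, S, B₀, hln, hlc, hLnk, hScard, hB0, hSB0, hno⟩ := exists_sel H 𝓑 hB h h1 hN
  obtain ⟨C, hC⟩ : ∃ C : Finset W, ∀ w, w ∈ C ↔ ∃ b ∈ B₀, Jn H {w | w ∉ S} b w :=
    ⟨Finset.univ.filter (fun w => ∃ b ∈ B₀, Jn H {w | w ∉ S} b w), fun w => by simp⟩
  have hCS : ∀ w ∈ C, w ∉ S := by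
    intro w hw
    obtain ⟨b, _, hJ⟩ := (hC w).1 hw
    exact hJ.right
  have hCl : ∀ x ∈ l, x ∉ C := by
    intro x hx hxC
    obtain ⟨b, hb, hJ⟩ := (hC x).1 hxC
    exact hno x hx b hb hJ.symm
  have c2 : ∀ x ∈ C, ∀ y, H.Adj x y → y ∈ C ∨ y ∈ S := by
    intro x hx y hxy
    by_cases hy : y ∈ S
    · exact Or.inr hy
    · obtain ⟨b, hb, hJ⟩ := (hC x).1 hx
      exact Or.inl ((hC y).2 ⟨b, hb, hJ.step hxy hy⟩)
  have c3 : ∀ B ∈ 𝓑, (∀ x ∈ S, x ∉ B) → ∀ b ∈ B, b ∈ C := by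
    intro B hBm hSB b hb
    obtain ⟨b0, hb0⟩ := (hB.1 B₀ hB0).1
    have hcn : Cn H (B₀ ∪ B) :=
      ((hB.1 B₀ hB0).2).union_of_touch (hB.1 B hBm).2 (hB.2 B₀ hB0 B hBm)
    have hsub : B₀ ∪ B ⊆ {w | w ∉ S} := by
      rintro w (hw | hw) hwS
      · exact hSB0 w hwS hw
      · exact hSB w hwS hw
    exact (hC b).2 ⟨b0, hb0, Jn.of_cn hcn hsub (Or.inl hb0) (Or.inr hb)⟩
  have c4 : ∀ Z : Finset W, Z.card < 2 * h → ∃ B ∈ 𝓑, ∀ x ∈ Z, x ∉ B := by
    intro Z hZ
    by_contra hc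
    have h2 := hN Z (by
      intro B' hB'
      by_contra hc2
      apply hc
      refine ⟨B', hB', ?_⟩
      intro x hx hxB
      exact hc2 ⟨x, hx, hxB⟩)
    omega
  have hteeth : Lk H l.toFinset S (Finset.univ \ C) h := by
    refine lk_of_jn H l.toFinset S (Finset.univ \ C) h ?_
    intro Z hZ
    obtain ⟨B', hB', hav⟩ := c4 (S ∪ Z) (by
      have := Finset.card_union_le S Z
      omega)
    have hSB' : ∀ x ∈ S, x ∉ B' := fun x hx => hav x (Finset.mem_union_left _ hx)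
    have hZB' : ∀ x ∈ Z, x ∉ B' := fun x hx => hav x (Finset.mem_union_right _ hx)
    obtain ⟨p, hp, b, hb, hJ⟩ := hLnk Z hZ B' hB' hZB'
    by_cases hpS : p ∈ S
    · refine ⟨p, hp, p, hpS, Jn.refl ⟨?_, hJ.1⟩⟩
      exact Finset.mem_union_right _ hpS
    · obtain ⟨u, w, hu, huw, hw1, hw2⟩ := Jn.exit (G := {v | v ∈ S ∨ v ∈ C}) hJ
        (by
          rintro (hc | hc)
          · exact hpS hc
          · exact hCl p (List.mem_toFinset.1 hp) hc)
        (Or.inr (c3 B' hB' hSB' b hb))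
      have hwS : w ∈ S := by
        rcases hw2 with hw2 | hw2
        · exact hw2
        · exfalso
          rcases c2 w hw2 u huw.symm with hc | hc
          · exact hu.right.2 (Or.inr hc)
          · exact hu.right.2 (Or.inl hc)
      refine ⟨p, hp, w, hwS, ?_⟩
      refine Jn.step (Jn.mono ?_ hu) huw ⟨Finset.mem_union_right _ hwS, hw1⟩
      rintro z ⟨hz1, hz2⟩
      refine ⟨Finset.mem_union_left _ (Finset.mem_union_right _ (Finset.mem_sdiff.2
        ⟨Finset.mem_univ _, fun hc => hz2 (Or.inr hc)⟩)), hz1⟩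
  obtain ⟨T, p, s, hXY, hdis⟩ := hteeth
  have hsT : ∀ i, s i ∈ T i := fun i => (hXY i).1.right_mem
  have hsS : ∀ i, s i ∈ S := by
    intro i
    have : s i ∈ T i ∩ S := by rw [(hXY i).2.2.1]; exact Finset.mem_singleton_self _
    exact (Finset.mem_inter.1 this).2
  have hsinj : Function.Injective s := by
    intro i j hij
    by_contra hne
    have := Finset.disjoint_left.1 (hdis i j hne) (hsT i)
    rw [hij] at this
    exact this (hsT j)
  refine ⟨{ l := l, nodup := hln, chain := hlc, T := T, p := p, s := s,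
            pth := fun i => (hXY i).1, tl := fun i => (hXY i).2.1, dis := hdis, C := C,
            CT := ?_, Cl := hCl, ext := ?_ }⟩
  · intro i
    rw [Finset.disjoint_left]
    intro w hwC hwT
    rcases Finset.mem_union.1 ((hXY i).2.2.2 hwT) with hw | hw
    · rcases Finset.mem_union.1 hw with hw | hw
      · exact hCl w (List.mem_toFinset.1 hw) hwC
      · exact (Finset.mem_sdiff.1 hw).2 hwC
    · exact hCS w hwC hw
  · intro I J hIJ hcard
    have hX : (I.image s).card = I.card := Finset.card_image_of_injective _ hsinj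
    have hY : (J.image s).card = I.card := by
      rw [hcard]; exact Finset.card_image_of_injective _ hsinj
    have hXS : I.image s ⊆ S := by
      intro w hw
      obtain ⟨i, _, rfl⟩ := Finset.mem_image.1 hw
      exact hsS i
    have hYS : J.image s ⊆ S := by
      intro w hw
      obtain ⟨i, _, rfl⟩ := Finset.mem_image.1 hw
      exact hsS i
    refine lk_of_jn H _ _ C I.card ?_
    intro Z hZ
    have hIh : I.card ≤ h := by
      have := Finset.card_le_univ I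
      simpa using this
    obtain ⟨B', hB', hav⟩ := c4 (S ∪ Z) (by
      have := Finset.card_union_le S Z
      omega)
    have hSB' : ∀ x ∈ S, x ∉ B' := fun x hx => hav x (Finset.mem_union_left _ hx)
    have hZB' : ∀ x ∈ Z, x ∉ B' := fun x hx => hav x (Finset.mem_union_right _ hx)
    obtain ⟨b1, hb1, w1, hw1, hJ1⟩ := ext_side H 𝓑 h l S C (I.image s) Z hLnk hScard hCl c2 hXS
      (by omega) B' hB' hSB' hZB' (c3 B' hB' hSB')
    obtain ⟨b2, hb2, w2, hw2, hJ2⟩ := ext_side H 𝓑 h l S C (J.image s) Z hLnk hScard hCl c2 hYS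
      (by omega) B' hB' hSB' hZB' (c3 B' hB' hSB')
    have m1 : Jn H {w | w ∈ I.image s ∪ C ∪ J.image s ∧ w ∉ Z} b1 w1 := by
      refine Jn.mono ?_ hJ1
      rintro v ⟨hv1 | hv1, hv2⟩
      · exact ⟨Finset.mem_union_left _ (Finset.mem_union_right _ hv1), hv2⟩
      · exact ⟨Finset.mem_union_left _ (Finset.mem_union_left _ hv1), hv2⟩
    have m2 : Jn H {w | w ∈ I.image s ∪ C ∪ J.image s ∧ w ∉ Z} b2 w2 := by
      refine Jn.mono ?_ hJ2
      rintro v ⟨hv1 | hv1, hv2⟩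
      · exact ⟨Finset.mem_union_left _ (Finset.mem_union_right _ hv1), hv2⟩
      · exact ⟨Finset.mem_union_right _ hv1, hv2⟩
    have m3 : Jn H {w | w ∈ I.image s ∪ C ∪ J.image s ∧ w ∉ Z} b1 b2 := by
      refine Jn.of_cn (hB.1 B' hB').2 ?_ hb1 hb2
      intro v hv
      exact ⟨Finset.mem_union_left _ (Finset.mem_union_right _ (c3 B' hB' hSB' v hv)),
        fun hc => hZB' v hc hv⟩
    exact ⟨w1, hw1, w2, hw2, (m1.symm.trans m3).trans m2⟩

end GRT
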