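import Pool.Agent.GRT.Lkd
import Pool.Agent.DWK.Sbn

/-! # GRT OC: ordered crossings (definition), the minimal union, the yardstick

`OC H ρ d`: `ρ` disjoint paths (rows, as lists) and `d` disjoint connected sets (columns); every column meets every row, and the row `j` is
cut into `d` consecutive segments (the positions `t` with `cut j n ≤ t < cut j (n + 1)`) such that the column `n` meets it only in its segment `n`.

PROOF of `exists_min`. Among the graphs `U` with `F ≤ U ≤ H` and `Lk U X Y D h` (there is one: `H`) choose one with the least number of edges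
(`U.edgeSet.ncard`, `W` is finite). Removing an edge `x y` of `U` which is not in `F` gives a graph between `F` and `H` with fewer edges. -/

set_option autoImplicit false
set_option linter.unusedVariables false
set_option linter.unusedSectionVars false

namespace GRT

open SimpleGraph DWH

variable {W : Type} [Fintype W] [DecidableEq W]

/-- an ordered crossing -/
structure OC (H : SimpleGraph W) (ρ d : ℕ) where
  row : Fin ρ → List W
  nodup : ∀ j, (row j).Nodup
  chain : ∀ j, (row j).IsChain H.Adj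
  disj : ∀ i j, i ≠ j → ∀ x ∈ row i, x ∉ row j
  col : Fin d → Finset W
  cn : ∀ n, Cn H (col n : Set W)
  cdisj : ∀ m n, m ≠ n → Disjoint (col m) (col n)
  cut : Fin ρ → ℕ → ℕ
  meet : ∀ n j, ∃ x ∈ col n, x ∈ row j
  seg : ∀ (n : Fin d) j t x, (row j)[t]? = some x → x ∈ col n →
    cut j n ≤ t ∧ t < cut j (n + 1)

/-- the graph of the edges of `H` inside the sets `V i` -/
def Fg (H : SimpleGraph W) {K : ℕ} (V : Fin K → Finset W) : SimpleGraph W where
  Adj x y := H.Adj x y ∧ ∃ i, x ∈ V i ∧ y ∈ V i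
  symm := ⟨fun _ _ ⟨h, i, hx, hy⟩ => ⟨h.symm, i, hy, hx⟩⟩
  loopless := ⟨fun x h => H.loopless.irrefl x h.1⟩

/-- `U` without the edge `x y` -/
def dl (U : SimpleGraph W) (x y : W) : SimpleGraph W where
  Adj a b := U.Adj a b ∧ ¬ (a = x ∧ b = y) ∧ ¬ (a = y ∧ b = x)
  symm := ⟨fun _ _ ⟨h, h1, h2⟩ => ⟨h.symm, fun e => h2 ⟨e.2, e.1⟩, fun e => h1 ⟨e.2, e.1⟩⟩⟩
  loopless := ⟨fun x h => U.loopless.irrefl x h.1⟩

theorem exists_min (H F : SimpleGraph W) (hF : F ≤ H) (X Y D : Finset W) (h : ℕ)
    (hL : Lk H X Y D h) :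
    ∃ U : SimpleGraph W, F ≤ U ∧ U ≤ H ∧ Lk U X Y D h ∧
      ∀ x y, U.Adj x y → ¬ F.Adj x y → ¬ Lk (dl U x y) X Y D h := by
  classical
  have hex : ∃ n : ℕ, ∃ U : SimpleGraph W, F ≤ U ∧ U ≤ H ∧ Lk U X Y D h ∧ U.edgeSet.ncard = n :=
    ⟨H.edgeSet.ncard, H, hF, le_refl H, hL, rfl⟩
  obtain ⟨U, h1, h2, h3, h4⟩ := Nat.find_spec hex
  refine ⟨U, h1, h2, h3, fun x y hxy hxF hdl => ?_⟩
  have h5 : (dl U x y).edgeSet.ncard < U.edgeSet.ncard := by
    refine Set.ncard_lt_ncard ?_ (Set.toFinite _)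
    refine ⟨fun e => ?_, fun hsub => ?_⟩
    · induction e using Sym2.ind with
      | _ a b =>
        intro he
        rw [mem_edgeSet] at he ⊢
        exact he.1
    · have h6 : s(x, y) ∈ (dl U x y).edgeSet := hsub (by rw [mem_edgeSet]; exact hxy)
      rw [mem_edgeSet] at h6
      exact h6.2.1 ⟨rfl, rfl⟩
  rw [h4] at h5
  refine Nat.find_min hex h5 ⟨dl U x y, ?_, ?_, hdl, rfl⟩
  · intro a b hab
    refine ⟨h1 hab, ?_, ?_⟩
    · rintro ⟨rfl, rfl⟩
      exact hxF hab
    · rintro ⟨rfl, rfl⟩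
      exact hxF hab.symm
  · intro a b hab
    exact h2 hab.1

theorem OC.mono {H H' : SimpleGraph W} (hH : H ≤ H') {ρ d : ℕ} (O : OC H ρ d) :
    Nonempty (OC H' ρ d) :=
  ⟨{ row := O.row
     nodup := O.nodup
     chain := fun j => (O.chain j).imp fun _ _ h => hH h
     disj := O.disj
     col := O.col
     cn := fun n x hx y hy => by
       have h0 := O.cn n x hx y hy
       induction h0 with
       | refl => exact Relation.ReflTransGen.refl
       | tail _ h2 ih => exact (ih h2.2.1).tail ⟨hH h2.1, h2.2⟩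
     cdisj := O.cdisj
     cut := O.cut
     meet := O.meet
     seg := O.seg }⟩

end GRT
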