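import Pool.Agent.GRT.Gtu
import Pool.Agent.GRT.Oc

/-! # GRT CON: connectors in one column of an ordered crossing

`O.sg j n`: the segment `n` of the row `j` (positions `t` with `cut j n ≤ t < cut j (n + 1)`); `O.blk n`: the column `n` together with the segments `n` of all rows.

PROOF. `sg_cn`: a segment of a path list is connected (`DWH.cn_list` for a `drop`/`take` of the list, or `seg_pth`). `blk` is disjoint for different `n`: column and
column `cdisj`; segment and segment: the rows are disjoint, and on one row the positions differ (`nodup`; monotonicity of `cut`: `cut j n < cut j (n + 1)` for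
`n < d` by `meet` and `seg`); column `m` and segment `n`, `m ≠ n`: `seg` (and monotonicity).
`col_tuple`. Define the graph `Λ` on `Fin ρ`: `i` and `j` adjacent iff `i ≠ j` and there is a path `Pth H S x y` with `S ⊆ blk n`, `x ∈ row i`, `y ∈ row j` such that the other
vertices of `S` are in no row (`∀ w ∈ S, w ≠ x → w ≠ y → ∀ l, w ∉ row l`). `Λ` is connected: let `i, j : Fin ρ`; the column `n` meets both rows and is connected, so there
are `x ∈ row i`, `y ∈ row j` in `col n` and a path list from `x` to `y` inside `col n`. Claim by strong induction on the length of a path list inside `blk n` from a vertex of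
row `i` to a vertex of row `j`: `i` and `j` are joined in `Λ`: if no inner vertex is in a row, then `i = j` or `Λ.Adj i j`; otherwise split at an inner vertex in a
row `l` (two shorter path lists).
`good_tuple` gives `a` and, for `i + 1 = j`, a set `C` of rows. Let `E` be the union of the segments `sg l n`, `l ∈ C`, and of all the paths `S` of edges of `Λ` between
elements of `C` (choose them, or take all `w` lying on such a path). `E` is connected, contained in `blk n`, meets `row (a i)` and `row (a j)` and does not meet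
`row (a l)` for `l ≠ i, j` (its vertices in rows are in rows of `C`). Take `x ∈ E ∩ row (a i)`, `y ∈ E ∩ row (a j)`, a path from `x` to `y` inside `E` (`pth_of_cn`), and shrink it with
`Pth.ab` (`A = (row (a i)).toFinset`, `B = (row (a j)).toFinset`). -/

set_option autoImplicit false
set_option linter.unusedVariables false
set_option linter.unusedSectionVars false

namespace GRT

open SimpleGraph DWH

variable {W : Type} [Fintype W] [DecidableEq W] {H : SimpleGraph W} {ρ d : ℕ}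

/-- the segment `n` of the row `j` -/
noncomputable def OC.sg (O : OC H ρ d) (j : Fin ρ) (n : ℕ) : Finset W :=
  ((O.row j).take (O.cut j (n + 1))).toFinset \ ((O.row j).take (O.cut j n)).toFinset

private theorem cnn_take {l : List W} {k : ℕ} {x : W} :
    x ∈ l.take k ↔ ∃ t, t < k ∧ l[t]? = some x := by
  rw [List.mem_iff_getElem?]
  constructor
  · rintro ⟨t, ht⟩
    rw [List.getElem?_take] at ht
    split_ifs at ht with hlt
    exact ⟨t, hlt, ht⟩
  · rintro ⟨t, h1, h2⟩
    refine ⟨t, ?_⟩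
    rw [List.getElem?_take, if_pos h1]
    exact h2

theorem OC.mem_sg (O : OC H ρ d) (j : Fin ρ) (n : ℕ) (x : W) :
    x ∈ O.sg j n ↔ ∃ t, (O.row j)[t]? = some x ∧ O.cut j n ≤ t ∧ t < O.cut j (n + 1) := by
  unfold OC.sg
  rw [Finset.mem_sdiff, List.mem_toFinset, List.mem_toFinset, cnn_take, cnn_take]
  constructor
  · rintro ⟨⟨t, h1, h2⟩, h3⟩
    refine ⟨t, h2, ?_, h1⟩
    by_contra h4
    exact h3 ⟨t, by omega, h2⟩
  · rintro ⟨t, h1, h2, h3⟩
    refine ⟨⟨t, h3, h1⟩, ?_⟩
    rintro ⟨t', h4, h5⟩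
    have := getElem?_nodup_inj (O.nodup j) h1 h5
    omega

theorem OC.sg_cn (O : OC H ρ d) (j : Fin ρ) (n : ℕ) : Cn H (O.sg j n : Set W) := by
  have key : ∀ x y tx ty, (O.row j)[tx]? = some x → O.cut j n ≤ tx → tx < O.cut j (n + 1) →
      (O.row j)[ty]? = some y → O.cut j n ≤ ty → ty < O.cut j (n + 1) → tx ≤ ty →
      Relation.ReflTransGen (Stp H (O.sg j n : Set W)) x y := by
    intro x y tx ty h1 h2 h3 h4 h5 h6 h7
    have hp := seg_pth (O.nodup j) (O.chain j) h7 h1 h4
    have hsub : ((DWH.seg (O.row j) tx ty : Finset W) : Set W) ⊆ (O.sg j n : Set W) := by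
      intro w hw
      obtain ⟨t, h8, h9, h10⟩ := mem_seg.1 (Finset.mem_coe.1 hw)
      exact Finset.mem_coe.2 ((O.mem_sg j n w).2 ⟨t, h10, by omega, by omega⟩)
    exact rtg_mono hsub (hp.cn x (Finset.mem_coe.2 hp.left_mem) y (Finset.mem_coe.2 hp.right_mem))
  intro x hx y hy
  obtain ⟨tx, h1, h2, h3⟩ := (O.mem_sg j n x).1 (Finset.mem_coe.1 hx)
  obtain ⟨ty, h4, h5, h6⟩ := (O.mem_sg j n y).1 (Finset.mem_coe.1 hy)
  rcases le_total tx ty with h7 | h7
  · exact key x y tx ty h1 h2 h3 h4 h5 h6 h7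
  · exact rtg_symm (key y x ty tx h4 h5 h6 h1 h2 h3 h7)

theorem OC.cut_lt (O : OC H ρ d) (j : Fin ρ) (n : ℕ) (hn : n < d) :
    O.cut j n < O.cut j (n + 1) := by
  obtain ⟨x, hx, hxr⟩ := O.meet ⟨n, hn⟩ j
  obtain ⟨t, ht⟩ := List.mem_iff_getElem?.1 hxr
  have := O.seg ⟨n, hn⟩ j t x ht hx
  have h1 : O.cut j n ≤ t := this.1
  have h2 : t < O.cut j (n + 1) := this.2
  omega

theorem OC.cut_mono (O : OC H ρ d) (j : Fin ρ) {m n : ℕ} (h : m ≤ n) (hn : n ≤ d) :
    O.cut j m ≤ O.cut j n := by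
  induction n, h using Nat.le_induction with
  | base => exact le_rfl
  | succ k hk ih =>
    have h1 := ih (by omega)
    have h2 := O.cut_lt j k (by omega)
    omega

/-- the column `n` together with the segments `n` of all rows -/
noncomputable def OC.blk (O : OC H ρ d) (n : Fin d) : Finset W :=
  O.col n ∪ Finset.univ.biUnion fun j => O.sg j n

private theorem cnn_uniq (O : OC H ρ d) (j : Fin ρ) {m n t : ℕ} (hm : m < d) (hn : n < d)
    (h1 : O.cut j m ≤ t) (h2 : t < O.cut j (m + 1)) (h3 : O.cut j n ≤ t)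
    (h4 : t < O.cut j (n + 1)) : m = n := by
  rcases lt_trichotomy m n with h | h | h
  · have := O.cut_mono j (m := m + 1) (n := n) (by omega) (by omega)
    omega
  · exact h
  · have := O.cut_mono j (m := n + 1) (n := m) (by omega) (by omega)
    omega

theorem OC.blk_disj (O : OC H ρ d) {m n : Fin d} (h : m ≠ n) : Disjoint (O.blk m) (O.blk n) := by
  rw [Finset.disjoint_left]
  intro x hx hx'
  unfold OC.blk at hx hx'
  rw [Finset.mem_union, Finset.mem_biUnion] at hx hx'
  rcases hx with hx | ⟨i, -, hx⟩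
  · rcases hx' with hx' | ⟨j, -, hx'⟩
    · exact Finset.disjoint_left.1 (O.cdisj m n h) hx hx'
    · obtain ⟨t, h1, h2, h3⟩ := (O.mem_sg j n x).1 hx'
      have h4 := O.seg m j t x h1 hx
      exact h (Fin.ext (cnn_uniq O j m.2 n.2 h4.1 h4.2 h2 h3))
  · obtain ⟨t, h1, h2, h3⟩ := (O.mem_sg i m x).1 hx
    rcases hx' with hx' | ⟨j, -, hx'⟩
    · have h4 := O.seg n i t x h1 hx'
      exact h (Fin.ext (cnn_uniq O i m.2 n.2 h2 h3 h4.1 h4.2))
    · obtain ⟨t', h1', h2', h3'⟩ := (O.mem_sg j n x).1 hx'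
      have hij : i = j := by
        by_contra hij
        exact O.disj i j hij x (List.mem_of_getElem? h1) (List.mem_of_getElem? h1')
      subst hij
      have := getElem?_nodup_inj (O.nodup i) h1 h1'
      subst this
      exact h (Fin.ext (cnn_uniq O i m.2 n.2 h2 h3 h2' h3'))

/-- the elements of the block `n` in the row `j` are in the segment `n` -/
theorem OC.blk_row (O : OC H ρ d) (n : Fin d) (j : Fin ρ) (x : W) (hx : x ∈ O.blk n)
    (hj : x ∈ O.row j) : x ∈ O.sg j n := by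
  unfold OC.blk at hx
  rw [Finset.mem_union, Finset.mem_biUnion] at hx
  rcases hx with hx | ⟨i, -, hx⟩
  · obtain ⟨t, ht⟩ := List.mem_iff_getElem?.1 hj
    have h4 := O.seg n j t x ht hx
    exact (O.mem_sg j n x).2 ⟨t, ht, h4.1, h4.2⟩
  · obtain ⟨t, h1, h2, h3⟩ := (O.mem_sg i n x).1 hx
    have hij : i = j := by
      by_contra hij
      exact O.disj i j hij x (List.mem_of_getElem? h1) hj
    rw [← hij]
    exact hx

/-- the rows `i` and `j` are joined by a path in the block `n` whose inner vertices are in no row -/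
private def cnnE (O : OC H ρ d) (n : Fin d) (i j : Fin ρ) : Prop :=
  ∃ (S : Finset W) (x y : W), Pth H S x y ∧ S ⊆ O.blk n ∧ x ∈ O.row i ∧ y ∈ O.row j ∧
    ∀ w ∈ S, w ≠ x → w ≠ y → ∀ l, w ∉ O.row l

theorem OC.col_tuple (O : OC H ρ d) (r : ℕ) (hρ : r * r < ρ) (n : Fin d) :
    ∃ a : Fin r → Fin ρ, Function.Injective a ∧ ∀ i j : Fin r, (i : ℕ) + 1 = j →
      ∃ (C : Finset W) (x y : W), Pth H C x y ∧ C ⊆ O.blk n ∧
        C ∩ (O.row (a i)).toFinset = {x} ∧ C ∩ (O.row (a j)).toFinset = {y} ∧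
        ∀ l, l ≠ i → l ≠ j → Disjoint C (O.row (a l)).toFinset := by
  have hcolsub : O.col n ⊆ O.blk n := Finset.subset_union_left
  have hsgsub : ∀ l, O.sg l n ⊆ O.blk n := fun l w hw =>
    Finset.mem_union_right _ (Finset.mem_biUnion.2 ⟨l, Finset.mem_univ _, hw⟩)
  have hsgrow : ∀ l w, w ∈ O.sg l n → w ∈ O.row l := by
    intro l w hw
    obtain ⟨t, h1, -, -⟩ := (O.mem_sg l n w).1 hw
    exact List.mem_of_getElem? h1
  have hrow1 : ∀ i j w, w ∈ O.row i → w ∈ O.row j → i = j := by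
    intro i j w h1 h2
    by_contra hij
    exact O.disj i j hij w h1 h2
  let Λ : SimpleGraph (Fin ρ) :=
    { Adj := fun i j => i ≠ j ∧ cnnE O n i j
      symm := ⟨fun i j hij => ⟨hij.1.symm, by
        obtain ⟨S, x, y, h1, h2, h3, h4, h5⟩ := hij.2
        exact ⟨S, y, x, h1.symm, h2, h4, h3, fun w hw hwy hwx => h5 w hw hwx hwy⟩⟩⟩
      loopless := ⟨fun i hi => hi.1 rfl⟩ }
  have key : ∀ k, ∀ (S : Finset W) (x y : W) (i j : Fin ρ), S.card = k → Pth H S x y →
      S ⊆ O.blk n → x ∈ O.row i → y ∈ O.row j →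
      Relation.ReflTransGen (Stp Λ Set.univ) i j := by
    intro k
    induction k using Nat.strong_induction_on with
    | _ k ih =>
      intro S x y i j hk hp hS hx hy
      by_cases hc : ∃ w ∈ S, w ≠ x ∧ w ≠ y ∧ ∃ l, w ∈ O.row l
      · obtain ⟨w, hwS, hwx, hwy, l, hwl⟩ := hc
        obtain ⟨S1, S2, p1, p2, hu, hi⟩ := hp.split hwS
        have hS1 : S1 ⊆ S := by rw [← hu]; exact Finset.subset_union_left
        have hS2 : S2 ⊆ S := by rw [← hu]; exact Finset.subset_union_right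
        have hy1 : y ∉ S1 := by
          intro hy'
          have : y ∈ S1 ∩ S2 := Finset.mem_inter.2 ⟨hy', p2.right_mem⟩
          rw [hi, Finset.mem_singleton] at this
          exact hwy this.symm
        have hx2 : x ∉ S2 := by
          intro hx'
          have : x ∈ S1 ∩ S2 := Finset.mem_inter.2 ⟨p1.left_mem, hx'⟩
          rw [hi, Finset.mem_singleton] at this
          exact hwx this.symm
        have hlt1 : S1.card < k := by
          rw [← hk]
          exact Finset.card_lt_card ⟨hS1, fun hc => hy1 (hc hp.right_mem)⟩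
        have hlt2 : S2.card < k := by
          rw [← hk]
          exact Finset.card_lt_card ⟨hS2, fun hc => hx2 (hc hp.left_mem)⟩
        exact (ih _ hlt1 S1 x w i l rfl p1 (hS1.trans hS) hx hwl).trans
          (ih _ hlt2 S2 w y l j rfl p2 (hS2.trans hS) hwl hy)
      · by_cases hij : i = j
        · rw [hij]
        · refine .single ⟨⟨hij, S, x, y, hp, hS, hx, hy, ?_⟩, trivial, trivial⟩
          intro w hw hwx hwy l hwl
          exact hc ⟨w, hw, hwx, hwy, l, hwl⟩
  have hΛ : Cn Λ (Set.univ : Set (Fin ρ)) := by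
    intro i _ j _
    obtain ⟨x, hx, hxi⟩ := O.meet n i
    obtain ⟨y, hy, hyj⟩ := O.meet n j
    obtain ⟨S, hS, hSD⟩ := pth_of_cn (O.cn n) (Finset.mem_coe.2 hx) (Finset.mem_coe.2 hy)
    exact key _ S x y i j rfl hS ((Finset.coe_subset.1 hSD).trans hcolsub) hxi hyj
  obtain ⟨a, hinj, ha⟩ := good_tuple r ρ hρ Λ hΛ
  refine ⟨a, hinj, fun i j hij => ?_⟩
  obtain ⟨C, hC, hiC, hjC, hlC⟩ := ha i j hij
  let E : Set W := {w | (∃ l ∈ C, w ∈ O.sg l n) ∨ ∃ l ∈ C, ∃ l' ∈ C, ∃ (S : Finset W) (x y : W),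
    Pth H S x y ∧ S ⊆ O.blk n ∧ x ∈ O.row l ∧ y ∈ O.row l' ∧
      (∀ w ∈ S, w ≠ x → w ≠ y → ∀ l, w ∉ O.row l) ∧ w ∈ S}
  have hEblk : ∀ w ∈ E, w ∈ O.blk n := by
    rintro w (⟨l, hl, hw⟩ | ⟨l, hl, l', hl', S, x, y, h1, h2, h3, h4, h5, h6⟩)
    · exact hsgsub l hw
    · exact h2 h6
  have hErow : ∀ w ∈ E, ∀ l, w ∈ O.row l → l ∈ C := by
    rintro w (⟨l0, hl, hw⟩ | ⟨l0, hl, l', hl', S, x, y, h1, h2, h3, h4, h5, h6⟩) l hwl
    · rw [hrow1 l l0 w hwl (hsgrow l0 w hw)]
      exact hl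
    · by_cases hwx : w = x
      · rw [hwx] at hwl
        rw [hrow1 l l0 x hwl h3]
        exact hl
      · by_cases hwy : w = y
        · rw [hwy] at hwl
          rw [hrow1 l l' y hwl h4]
          exact hl'
        · exact absurd hwl (h5 w h6 hwx hwy l)
  have hsgE : ∀ l ∈ C, ((O.sg l n : Finset W) : Set W) ⊆ E := fun l hl w hw =>
    Or.inl ⟨l, hl, Finset.mem_coe.1 hw⟩
  have key2 : ∀ l ∈ C, ∀ l', Relation.ReflTransGen (Stp Λ C) l l' → l' ∈ C →
      ∀ x ∈ O.sg l n, ∀ y ∈ O.sg l' n, Relation.ReflTransGen (Stp H E) x y := by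
    intro l hl l' hch
    induction hch with
    | refl =>
      intro _ x hx y hy
      exact rtg_mono (hsgE l hl) (O.sg_cn l n x (Finset.mem_coe.2 hx) y (Finset.mem_coe.2 hy))
    | tail h1 h2 ih =>
      rename_i b c
      intro hc x hx y hy
      obtain ⟨⟨hbc, S, u, v, k1, k2, k3, k4, k5⟩, hbC, hcC⟩ := h2
      have hu : u ∈ O.sg b n := O.blk_row n b u (k2 k1.left_mem) k3
      have hv : v ∈ O.sg c n := O.blk_row n c v (k2 k1.right_mem) k4
      have hSE : (S : Set W) ⊆ E := fun w hw =>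
        Or.inr ⟨b, hbC, c, hcC, S, u, v, k1, k2, k3, k4, k5, Finset.mem_coe.1 hw⟩
      have e1 := ih hbC x hx u hu
      have e2 := rtg_mono hSE (k1.cn u (Finset.mem_coe.2 k1.left_mem) v
        (Finset.mem_coe.2 k1.right_mem))
      have e3 := rtg_mono (hsgE c hcC) (O.sg_cn c n v (Finset.mem_coe.2 hv) y
        (Finset.mem_coe.2 hy))
      exact (e1.trans e2).trans e3
  have key3 : ∀ w ∈ E, ∃ l ∈ C, ∃ x ∈ O.sg l n, Relation.ReflTransGen (Stp H E) w x := by
    rintro w (⟨l, hl, hw⟩ | ⟨l, hl, l', hl', S, x, y, h1, h2, h3, h4, h5, h6⟩)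
    · exact ⟨l, hl, w, hw, .refl⟩
    · have hSE : (S : Set W) ⊆ E := fun w hw =>
        Or.inr ⟨l, hl, l', hl', S, x, y, h1, h2, h3, h4, h5, Finset.mem_coe.1 hw⟩
      exact ⟨l, hl, x, O.blk_row n l x (h2 h1.left_mem) h3,
        rtg_mono hSE (h1.cn w (Finset.mem_coe.2 h6) x (Finset.mem_coe.2 h1.left_mem))⟩
  have hEcn : Cn H E := by
    intro w hw w' hw'
    obtain ⟨l, hl, x, hx, hwx⟩ := key3 w hw
    obtain ⟨l', hl', x', hx', hwx'⟩ := key3 w' hw'
    exact (hwx.trans (key2 l hl l' (hC l hl l' hl') hl' x hx x' hx')).trans (rtg_symm hwx')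
  have hmeetE : ∀ l ∈ C, ∃ x ∈ E, x ∈ O.row l := by
    intro l hl
    obtain ⟨x, hx, hxl⟩ := O.meet n l
    exact ⟨x, Or.inl ⟨l, hl, O.blk_row n l x (hcolsub hx) hxl⟩, hxl⟩
  obtain ⟨x, hxE, hxi⟩ := hmeetE _ hiC
  obtain ⟨y, hyE, hyj⟩ := hmeetE _ hjC
  obtain ⟨S, hS, hSE⟩ := pth_of_cn hEcn hxE hyE
  obtain ⟨S', x', y', h1, h2, h3, h4⟩ := hS.ab (A := (O.row (a i)).toFinset)
    (B := (O.row (a j)).toFinset) (List.mem_toFinset.2 hxi) (List.mem_toFinset.2 hyj)
  have hS'E : ∀ w ∈ S', w ∈ E := fun w hw => hSE (Finset.mem_coe.2 (h1 hw))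
  refine ⟨S', x', y', h2, fun w hw => hEblk w (hS'E w hw), h3, h4, ?_⟩
  intro l hli hlj
  rw [Finset.disjoint_left]
  intro w hw hwl
  exact hlC l hli hlj (hErow w (hS'E w hw) (a l) (List.mem_toFinset.1 hwl))

end GRT
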