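import Pool.Agent.GRT.Rcs

/-! # GRT RCG: rows with connectors give a grid

PROOF of `grid_of_rc`. `D = r * r`. For `(a, c) : Fin r × Fin r` (`a` row, `c` column): `B (a, c)` = the vertices of row `a` at the positions `t` with
`cut a (c r) ≤ t < cut a ((c + 1) r)`, together with (if `a + 1 < r`) the connector `con (c r + a) a` from row `a` to row `a + 1`, without its last vertex (the one in
row `a + 1`). Nonempty and connected: a segment of a path list (nonempty since `r ≥ 1` and the cuts increase strictly), and the connector without its last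
vertex is a path whose first vertex is in this segment (`Pth.drop_last`; the two ends are different because the rows are disjoint). Disjoint: rows are disjoint,
segments of one row for different `c` are disjoint, a connector without last vertex meets the rows only in its first vertex, which is in its own set, and
connectors with different numbers `c r + a` are disjoint. Edges of the grid `pathGraph r □ pathGraph r`: `(a, c)` and `(a, c + 1)`: the vertices of row `a` at the positions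
`cut a ((c+1) r) - 1` and `cut a ((c+1) r)` are adjacent (chain); `(a, c)` and `(a + 1, c)`: the last edge of the connector `con (c r + a) a`; its last vertex is in row `a + 1`
at a position in the segment `c r + a`, which is between `cut (a+1) (c r)` and `cut (a+1) ((c + 1) r)`. -/

set_option autoImplicit false
set_option linter.unusedVariables false
set_option linter.unusedSectionVars false

namespace GRT

open SimpleGraph DWH

variable {W : Type} [Fintype W] [DecidableEq W]

section rg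

variable {H : SimpleGraph W} {r D : ℕ}

private theorem rg_lt (R : RC H r D) (j : Fin r) {m n : ℕ} (h : m < n) (hn : n ≤ D) :
    R.cut j m < R.cut j n := by
  induction n with
  | zero => omega
  | succ n ih =>
    rcases Nat.lt_succ_iff_lt_or_eq.1 h with h1 | h1
    · exact (ih h1 (by omega)).trans (R.cut_lt j n (by omega))
    · subst h1
      exact R.cut_lt j m (by omega)

private theorem rg_le (R : RC H r D) (j : Fin r) {m n : ℕ} (h : m ≤ n) (hn : n ≤ D) :
    R.cut j m ≤ R.cut j n := by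
  rcases Nat.lt_or_eq_of_le h with h1 | h1
  · exact (rg_lt R j h1 hn).le
  · rw [h1]

private theorem rg_b (a c : Fin r) : (c : ℕ) * r + a < ((c : ℕ) + 1) * r := by
  have := a.2
  rw [Nat.add_mul, one_mul]
  omega

private theorem rg_b' (c : Fin r) : ((c : ℕ) + 1) * r ≤ r * r := Nat.mul_le_mul_right r c.2

private def rgN (a c : Fin r) : Fin (r * r) :=
  ⟨(c : ℕ) * r + a, (rg_b a c).trans_le (rg_b' c)⟩

private theorem rgN_inj {a c a' c' : Fin r} (h : rgN a c = rgN a' c') : a = a' ∧ c = c' := by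
  have h1 : (c : ℕ) * r + a = (c' : ℕ) * r + a' := congrArg Fin.val h
  have h2 : ((a : ℕ) + c * r) % r = a := by
    rw [Nat.add_mul_mod_self_right]
    exact Nat.mod_eq_of_lt a.2
  have h3 : ((a' : ℕ) + c' * r) % r = a' := by
    rw [Nat.add_mul_mod_self_right]
    exact Nat.mod_eq_of_lt a'.2
  have h4 : (a : ℕ) = a' := by
    rw [← h2, ← h3]
    congr 1
    omega
  have h5 : (c : ℕ) * r = c' * r := by omega
  have h6 : 0 < r := lt_of_le_of_lt (Nat.zero_le _) a.2
  exact ⟨Fin.ext h4, Fin.ext (Nat.eq_of_mul_eq_mul_right h6 h5)⟩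

/-- a piece of a row -/
private noncomputable def rgS (R : RC H r (r * r)) (a c : Fin r) : Finset W :=
  seg (R.row a) (R.cut a ((c : ℕ) * r)) (R.cut a (((c : ℕ) + 1) * r) - 1)

open Classical in
/-- a connector without its last vertex -/
private noncomputable def rgC (R : RC H r (r * r)) (a c : Fin r) : Finset W :=
  if (a : ℕ) + 1 < r then (R.con (rgN a c) a).erase (R.y (rgN a c) a) else ∅

private theorem rg_cc1 (R : RC H r (r * r)) (a c : Fin r) :
    R.cut a ((c : ℕ) * r) < R.cut a (((c : ℕ) + 1) * r) := by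
  refine rg_lt R a ?_ (rg_b' c)
  have := rg_b a c
  omega

private theorem rg_len (R : RC H r (r * r)) (a c : Fin r) :
    R.cut a (((c : ℕ) + 1) * r) ≤ (R.row a).length :=
  (rg_le R a (rg_b' c) le_rfl).trans (R.cut_le a)

private theorem mem_rgS {R : RC H r (r * r)} {a c : Fin r} {w : W} :
    w ∈ rgS R a c ↔ ∃ t, R.cut a ((c : ℕ) * r) ≤ t ∧ t < R.cut a (((c : ℕ) + 1) * r) ∧
      (R.row a)[t]? = some w := by
  have h1 := rg_cc1 R a c
  unfold rgS
  rw [mem_seg]
  constructor
  · rintro ⟨t, h2, h3, h4⟩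
    exact ⟨t, h2, by omega, h4⟩
  · rintro ⟨t, h2, h3, h4⟩
    exact ⟨t, h2, by omega, h4⟩

private theorem rgS_row {R : RC H r (r * r)} {a c : Fin r} {w : W} (hw : w ∈ rgS R a c) :
    w ∈ R.row a := by
  obtain ⟨t, -, -, h⟩ := mem_rgS.1 hw
  exact List.mem_of_getElem? h

private theorem rg_ne (R : RC H r (r * r)) (a c : Fin r) : ∃ x, x ∈ rgS R a c := by
  have h1 := rg_cc1 R a c
  have h2 := rg_len R a c
  have h3 : R.cut a ((c : ℕ) * r) < (R.row a).length := by omega
  exact ⟨(R.row a)[R.cut a ((c : ℕ) * r)], mem_rgS.2 ⟨_, le_rfl, h1, List.getElem?_eq_getElem h3⟩⟩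

private theorem rg_scn (R : RC H r (r * r)) (a c : Fin r) : Cn H (rgS R a c : Set W) := by
  have h1 := rg_cc1 R a c
  have h2 := rg_len R a c
  have h3 : R.cut a ((c : ℕ) * r) < (R.row a).length := by omega
  have h4 : R.cut a (((c : ℕ) + 1) * r) - 1 < (R.row a).length := by omega
  have h5 := seg_pth (R.nodup a) (R.chain a)
    (i := R.cut a ((c : ℕ) * r)) (j := R.cut a (((c : ℕ) + 1) * r) - 1) (by omega)
    (List.getElem?_eq_getElem h3) (List.getElem?_eq_getElem h4)
  exact h5.cn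

private theorem rg_x (R : RC H r (r * r)) {a b : Fin r} (c : Fin r) (h : (a : ℕ) + 1 = b) :
    R.x (rgN a c) a ∈ rgS R a c := by
  obtain ⟨t, h1, h2, h3⟩ := R.posx (rgN a c) a b h
  have h4 : ((rgN a c : Fin (r * r)) : ℕ) = (c : ℕ) * r + a := rfl
  rw [h4] at h2 h3
  refine mem_rgS.2 ⟨t, ?_, ?_, h1⟩
  · refine (rg_le R a (by omega) ?_).trans h2
    exact ((rg_b a c).trans_le (rg_b' c)).le
  · exact h3.trans_le (rg_le R a (rg_b a c) (rg_b' c))

private theorem rg_y (R : RC H r (r * r)) {a b : Fin r} (c : Fin r) (h : (a : ℕ) + 1 = b) :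
    R.y (rgN a c) a ∈ rgS R b c := by
  obtain ⟨t, h1, h2, h3⟩ := R.posy (rgN a c) a b h
  have h4 : ((rgN a c : Fin (r * r)) : ℕ) = (c : ℕ) * r + a := rfl
  rw [h4] at h2 h3
  refine mem_rgS.2 ⟨t, ?_, ?_, h1⟩
  · refine (rg_le R b (by omega) ?_).trans h2
    exact ((rg_b a c).trans_le (rg_b' c)).le
  · exact h3.trans_le (rg_le R b (rg_b a c) (rg_b' c))

private theorem rg_xy (R : RC H r (r * r)) {a b : Fin r} (c : Fin r) (h : (a : ℕ) + 1 = b) :
    R.x (rgN a c) a ≠ R.y (rgN a c) a := by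
  intro he
  have h1 := rgS_row (rg_x R c h)
  have h2 := rgS_row (rg_y R c h)
  rw [← he] at h2
  refine R.disj a b ?_ _ h1 h2
  rintro rfl
  omega

private theorem rgC_of (R : RC H r (r * r)) {a b : Fin r} (c : Fin r) (h : (a : ℕ) + 1 = b) :
    rgC R a c = (R.con (rgN a c) a).erase (R.y (rgN a c) a) := by
  have h1 : (a : ℕ) + 1 < r := by
    rw [h]
    exact b.2
  unfold rgC
  rw [if_pos h1]

private theorem rgC_cases (R : RC H r (r * r)) (a c : Fin r) :
    rgC R a c = ∅ ∨ ∃ b : Fin r, (a : ℕ) + 1 = b := by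
  by_cases h : (a : ℕ) + 1 < r
  · exact Or.inr ⟨⟨a + 1, h⟩, rfl⟩
  · left
    unfold rgC
    rw [if_neg h]

private theorem rg_cn (R : RC H r (r * r)) (a c : Fin r) :
    Cn H ((rgS R a c ∪ rgC R a c : Finset W) : Set W) := by
  rw [Finset.coe_union]
  rcases rgC_cases R a c with h | ⟨b, h⟩
  · rw [h, Finset.coe_empty, Set.union_empty]
    exact rg_scn R a c
  · obtain ⟨z, h1, h2⟩ := (R.pth (rgN a c) a b h).drop_last (rg_xy R c h)
    rw [rgC_of R c h]
    exact (rg_scn R a c).union_of_inter h2.cn (x := R.x (rgN a c) a) (rg_x R c h) h2.left_mem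

private theorem rg_ss (R : RC H r (r * r)) {a c a' c' : Fin r} (h : ¬ (a = a' ∧ c = c')) :
    Disjoint (rgS R a c) (rgS R a' c') := by
  rw [Finset.disjoint_left]
  intro w hw hw'
  by_cases ha : a = a'
  · subst ha
    have hc : (c : ℕ) ≠ c' := fun e => h ⟨rfl, Fin.ext e⟩
    obtain ⟨t, h1, h2, h3⟩ := mem_rgS.1 hw
    obtain ⟨t', h1', h2', h3'⟩ := mem_rgS.1 hw'
    have h4 := getElem?_nodup_inj (R.nodup a) h3 h3'
    rcases lt_or_gt_of_ne hc with h5 | h5
    · have h6 : ((c : ℕ) + 1) * r ≤ (c' : ℕ) * r := Nat.mul_le_mul_right r h5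
      have h7 := rg_le R a h6 (by have := rg_b a c'; have := rg_b' c'; omega)
      omega
    · have h6 : ((c' : ℕ) + 1) * r ≤ (c : ℕ) * r := Nat.mul_le_mul_right r h5
      have h7 := rg_le R a h6 (by have := rg_b a c; have := rg_b' c; omega)
      omega
  · exact R.disj a a' ha w (rgS_row hw) (rgS_row hw')

private theorem rg_sc (R : RC H r (r * r)) {a c a' c' : Fin r} (h : ¬ (a = a' ∧ c = c')) :
    Disjoint (rgS R a c) (rgC R a' c') := by
  rcases rgC_cases R a' c' with h1 | ⟨b, h1⟩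
  · rw [h1]
    exact Finset.disjoint_empty_right _
  · rw [rgC_of R c' h1, Finset.disjoint_left]
    intro w hw hw'
    rw [Finset.mem_erase] at hw'
    have hr := rgS_row hw
    by_cases ha : a = a'
    · subst ha
      have h2 : w ∈ R.con (rgN a c') a ∩ (R.row a).toFinset :=
        Finset.mem_inter.2 ⟨hw'.2, List.mem_toFinset.2 hr⟩
      rw [R.rowi (rgN a c') a b h1, Finset.mem_singleton] at h2
      have h3 := rg_x R c' h1
      rw [← h2] at h3
      exact (Finset.disjoint_left.1 (rg_ss R h)) hw h3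
    · by_cases hb : a = b
      · subst hb
        have h2 : w ∈ R.con (rgN a' c') a' ∩ (R.row a).toFinset :=
          Finset.mem_inter.2 ⟨hw'.2, List.mem_toFinset.2 hr⟩
        rw [R.rowj (rgN a' c') a' a h1, Finset.mem_singleton] at h2
        exact hw'.1 h2
      · exact (Finset.disjoint_left.1 (R.rowl (rgN a' c') a' b a h1 ha hb)) hw'.2
          (List.mem_toFinset.2 hr)

private theorem rg_cc (R : RC H r (r * r)) {a c a' c' : Fin r} (h : ¬ (a = a' ∧ c = c')) :
    Disjoint (rgC R a c) (rgC R a' c') := by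
  rcases rgC_cases R a c with h1 | ⟨b, h1⟩
  · rw [h1]
    exact Finset.disjoint_empty_left _
  rcases rgC_cases R a' c' with h2 | ⟨b', h2⟩
  · rw [h2]
    exact Finset.disjoint_empty_right _
  rw [rgC_of R c h1, rgC_of R c' h2]
  exact (R.cdisj (rgN a c) (rgN a' c') a a' b b' (fun e => h (rgN_inj e)) h1 h2).mono
    (Finset.erase_subset _ _) (Finset.erase_subset _ _)

private theorem rg_adj1 (R : RC H r (r * r)) (a c c' : Fin r) (h : (c : ℕ) + 1 = c') :
    ∃ x ∈ rgS R a c, ∃ y ∈ rgS R a c', H.Adj x y := by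
  have h1 := rg_cc1 R a c
  have h2 := rg_cc1 R a c'
  have h3 := rg_len R a c'
  rw [← h] at h2 h3
  have h4 : R.cut a (((c : ℕ) + 1) * r) - 1 + 1 < (R.row a).length := by omega
  have h5 : R.cut a (((c : ℕ) + 1) * r) - 1 + 1 = R.cut a (((c : ℕ) + 1) * r) := by omega
  have h6 := (List.isChain_iff_getElem.1 (R.chain a)) (R.cut a (((c : ℕ) + 1) * r) - 1) h4
  refine ⟨_, mem_rgS.2 ⟨R.cut a (((c : ℕ) + 1) * r) - 1, by omega, by omega,
    List.getElem?_eq_getElem (by omega)⟩, _, mem_rgS.2 ⟨R.cut a (((c : ℕ) + 1) * r) - 1 + 1, ?_,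
    ?_, List.getElem?_eq_getElem h4⟩, h6⟩
  · rw [← h]
    omega
  · rw [← h]
    omega

private theorem rg_adj2 (R : RC H r (r * r)) (a b c : Fin r) (h : (a : ℕ) + 1 = b) :
    ∃ x ∈ rgC R a c, ∃ y ∈ rgS R b c, H.Adj x y := by
  obtain ⟨z, h1, h2⟩ := (R.pth (rgN a c) a b h).drop_last (rg_xy R c h)
  refine ⟨z, ?_, R.y (rgN a c) a, rg_y R c h, h1⟩
  rw [rgC_of R c h]
  exact h2.right_mem

end rg

theorem grid_of_rc {H : SimpleGraph W} (r : ℕ) (R : RC H r (r * r)) :
    DWK.Mnr (DWK.gridG r) H := by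
  refine ⟨fun u => ((rgS R u.1 u.2 ∪ rgC R u.1 u.2 : Finset W) : Set W), ?_, ?_, ?_, ?_⟩
  · rintro ⟨a, c⟩
    obtain ⟨x, hx⟩ := rg_ne R a c
    exact ⟨x, by
      rw [Finset.mem_coe, Finset.mem_union]
      exact Or.inl hx⟩
  · rintro ⟨a, c⟩
    exact rg_cn R a c
  · rintro ⟨a, c⟩ ⟨a', c'⟩ hne
    have hne' : ¬ (a = a' ∧ c = c') := by
      rintro ⟨rfl, rfl⟩
      exact hne rfl
    rw [Finset.disjoint_coe]
    show Disjoint (rgS R a c ∪ rgC R a c) (rgS R a' c' ∪ rgC R a' c')
    rw [Finset.disjoint_union_left, Finset.disjoint_union_right, Finset.disjoint_union_right]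
    exact ⟨⟨rg_ss R hne', rg_sc R hne'⟩,
      (rg_sc R (fun h => hne' ⟨h.1.symm, h.2.symm⟩)).symm, rg_cc R hne'⟩
  · have key : ∀ u v : Fin r × Fin r, ((u.1 = v.1 ∧ (u.2 : ℕ) + 1 = v.2) ∨
        ((u.1 : ℕ) + 1 = v.1 ∧ u.2 = v.2)) →
        ∃ x ∈ ((rgS R u.1 u.2 ∪ rgC R u.1 u.2 : Finset W) : Set W),
        ∃ y ∈ ((rgS R v.1 v.2 ∪ rgC R v.1 v.2 : Finset W) : Set W), H.Adj x y := by
      rintro ⟨a, c⟩ ⟨a', c'⟩ h
      rcases h with ⟨h1, h2⟩ | ⟨h1, h2⟩
      · have h1' : a = a' := h1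
        subst h1'
        obtain ⟨x, hx, y, hy, hxy⟩ := rg_adj1 R a c c' h2
        refine ⟨x, ?_, y, ?_, hxy⟩
        · rw [Finset.mem_coe, Finset.mem_union]
          exact Or.inl hx
        · rw [Finset.mem_coe, Finset.mem_union]
          exact Or.inl hy
      · have h2' : c = c' := h2
        subst h2'
        obtain ⟨x, hx, y, hy, hxy⟩ := rg_adj2 R a a' c h1
        refine ⟨x, ?_, y, ?_, hxy⟩
        · rw [Finset.mem_coe, Finset.mem_union]
          exact Or.inr hx
        · rw [Finset.mem_coe, Finset.mem_union]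
          exact Or.inl hy
    intro u v huv
    have h1 : (pathGraph r □ pathGraph r).Adj u v := huv
    rw [boxProd_adj, pathGraph_adj, pathGraph_adj] at h1
    rcases h1 with ⟨h2 | h2, h3⟩ | ⟨h2 | h2, h3⟩
    · exact key u v (Or.inr ⟨h2, h3⟩)
    · obtain ⟨x, hx, y, hy, hxy⟩ := key v u (Or.inr ⟨h2, h3.symm⟩)
      exact ⟨y, hy, x, hx, hxy.symm⟩
    · exact key u v (Or.inl ⟨h3, h2⟩)
    · obtain ⟨x, hx, y, hy, hxy⟩ := key v u (Or.inl ⟨h3.symm, h2⟩)
      exact ⟨y, hy, x, hx, hxy.symm⟩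

theorem oc_grid (r : ℕ) : ∃ ρ d : ℕ, 1 ≤ ρ ∧ 1 ≤ d ∧ ∀ (W : Type) [Fintype W] [DecidableEq W]
    (H : SimpleGraph W), OC H ρ d → DWK.Mnr (DWK.gridG r) H := by
  refine ⟨r * r + 1, r * r * (r * r + 1) ^ r + 1, by omega, by omega, ?_⟩
  intro W _ _ H O
  obtain ⟨R⟩ := rc_of_oc r (r * r) (r * r + 1) _ (by omega) (by omega) O
  exact grid_of_rc r R

end GRT
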