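import Pool.Agent.GRT.Yrd
import Pool.Agent.GRT.Rcg

/-! # GRT CRS: one linkage against many connected sets

PROOF of `cross`. Let `ρ, d` be from `oc_grid r` (with `ρ, d ≥ 1`; `OC H ρ d` gives the grid). `h = s + ρ + 1`, `K0 = 2 ^ h * (d * (d * h))` (`+ 1`). Suppose `Lk H X Y D h`
and at least `K0` indices `i` are bad (`¬ Lk H X Y (D \ V i) s`). `F = Fg H V`, `exists_min`: `U` with `F ≤ U ≤ H`, linkage `P j`, `s j`, `t j` of `U` of size `h`.
For a bad `i` the set `T i` of the `j` such that `V i` meets `P j` has more than `h - s = ρ + 1` elements (`≥ ρ + 1` is enough): otherwise at least `s` paths avoid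
`V i` and `Lk.avoid` (`Lk U ..`, then `Lk.mono_graph`) contradicts badness. Pigeonhole over the subsets of `Fin h` (`Finset.exists_le_card_fiber_of_mul_le_card_of_maps_to`
or similar): there is a set `T` of indices `j` with `ρ + 1 ≤ T.card` such that `T i = T` for at least `d * (d * h)` bad `i`. Choose `q ∈ T` and an injection
`f : Fin ρ → T \ {q}`, and enumerate these `i` injectively by `g : Fin (d * (d * h)) → Fin K`. `yardstick` for the sets `V (g i)` (connected in `F`: `Cn H (V i)` and all edges of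
`H` inside `V i` are in `F`; closed: an edge of `F` lies in one `V i'`, and the `V i` are disjoint) gives `OC U ρ d`, `OC.mono` and `oc_grid` finish. -/

set_option autoImplicit false
set_option linter.unusedVariables false
set_option linter.unusedSectionVars false

namespace GRT

open SimpleGraph DWH

theorem cross (r s : ℕ) : ∃ h K0 : ℕ, s ≤ h ∧ ∀ (W : Type) [Fintype W] [DecidableEq W]
    (H : SimpleGraph W) (X Y D : Finset W), Lk H X Y D h →
    ∀ (K : ℕ) (V : Fin K → Finset W), (∀ i, V i ⊆ D) → (∀ i j, i ≠ j → Disjoint (V i) (V j)) →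
      (∀ i, Cn H (V i : Set W)) →
      DWK.Mnr (DWK.gridG r) H ∨
        ∀ T : Finset (Fin K), (∀ i ∈ T, ¬ Lk H X Y (D \ V i) s) → T.card < K0 := by
  obtain ⟨ρ, d, hρ, hd, hgrid⟩ := oc_grid r
  refine ⟨s + ρ + 1, 2 ^ (s + ρ + 1) * (d * (d * (s + ρ + 1))), by omega, ?_⟩
  intro W _ _ H X Y D hL K V hVD hVd hVc
  generalize hh : s + ρ + 1 = h at hL ⊢
  by_cases hg : DWK.Mnr (DWK.gridG r) H
  · exact Or.inl hg
  refine Or.inr fun T hT => ?_
  by_contra hcard
  push Not at hcard
  apply hg
  refine hgrid W H (Nonempty.some ?_)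
  have hFH : Fg H V ≤ H := fun a b hab => hab.1
  obtain ⟨U, hFU, hUH, hLU, hmin⟩ := exists_min H (Fg H V) hFH X Y D h hL
  obtain ⟨P, p, t, hP, hdis⟩ := hLU
  have hn1 : 1 ≤ d * (d * h) := by
    have h1 : 1 ≤ h := by omega
    have h2 : 1 ≤ d * h := Nat.mul_le_mul hd h1
    exact Nat.mul_le_mul hd h2
  let S : Fin K → Finset (Fin h) := fun i => Finset.univ.filter fun j => ¬ Disjoint (P j) (V i)
  have hS : ∀ i ∈ T, ρ + 1 ≤ (S i).card := by
    intro i hi
    by_contra hlt
    push Not at hlt
    have h1 : (Finset.univ.filter fun j => Disjoint (P j) (V i)).card + (S i).card = h := by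
      have := Finset.card_filter_add_card_filter_not (s := (Finset.univ : Finset (Fin h)))
        (fun j => Disjoint (P j) (V i))
      rw [Finset.card_univ, Fintype.card_fin] at this
      exact this
    have h2 : Lk U X Y (D \ V i) s :=
      Lk.avoid P p t hP hdis (Finset.univ.filter fun j => Disjoint (P j) (V i)) (V i)
        (fun j hj => (Finset.mem_filter.1 hj).2) s (by omega)
    exact hT i hi (h2.mono_graph hUH)
  obtain ⟨A, _, hA⟩ := Finset.exists_le_card_fiber_of_mul_le_card_of_maps_to
    (s := T) (t := (Finset.univ : Finset (Finset (Fin h)))) (f := S) (n := d * (d * h))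
    (fun a _ => Finset.mem_univ _) Finset.univ_nonempty (by
      rw [Finset.card_univ, Fintype.card_finset, Fintype.card_fin]
      exact hcard)
  obtain ⟨T', hT'sub, hT'card⟩ := Finset.exists_subset_card_eq hA
  have hT'mem : ∀ i ∈ T', i ∈ T ∧ S i = A := fun i hi => Finset.mem_filter.1 (hT'sub hi)
  have hAcard : ρ + 1 ≤ A.card := by
    have hne : T'.Nonempty := by
      rw [← Finset.card_pos, hT'card]
      omega
    obtain ⟨i0, hi0⟩ := hne
    have := hT'mem i0 hi0
    rw [← this.2]
    exact hS i0 this.1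
  have hAne : A.Nonempty := by
    rw [← Finset.card_pos]
    omega
  obtain ⟨q, hq⟩ := hAne
  have hE : ρ ≤ (A.erase q).card := by
    rw [Finset.card_erase_of_mem hq]
    omega
  obtain ⟨A', hA'sub, hA'card⟩ := Finset.exists_subset_card_eq hE
  let f : Fin ρ → Fin h := fun j => A'.orderEmbOfFin hA'card j
  have hfinj : Function.Injective f := (A'.orderEmbOfFin hA'card).injective
  have hfA : ∀ j, f j ∈ A.erase q := fun j => hA'sub (Finset.orderEmbOfFin_mem A' hA'card j)
  let g : Fin (d * (d * h)) → Fin K := fun j => T'.orderEmbOfFin hT'card j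
  have hginj : Function.Injective g := (T'.orderEmbOfFin hT'card).injective
  have hgT : ∀ j, g j ∈ T' := fun j => Finset.orderEmbOfFin_mem T' hT'card j
  have hmeetA : ∀ i j, j ∈ A → ∃ x ∈ V (g i), x ∈ P j := by
    intro i j hj
    have h1 : j ∈ S (g i) := by
      rw [(hT'mem (g i) (hgT i)).2]
      exact hj
    have h2 := (Finset.mem_filter.1 h1).2
    rw [Finset.not_disjoint_iff] at h2
    obtain ⟨x, hx1, hx2⟩ := h2
    exact ⟨x, hx2, hx1⟩
  have hVcF : ∀ i, Cn (Fg H V) (V (g i) : Set W) := by
    intro i x hx y hy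
    have h0 := hVc (g i) x hx y hy
    clear hy
    induction h0 with
    | refl => exact .refl
    | tail _ h2 ih => exact ih.tail ⟨⟨h2.1, g i, h2.2.1, h2.2.2⟩, h2.2.1, h2.2.2⟩
  have hVF : ∀ i x y, x ∈ V (g i) → (Fg H V).Adj x y → y ∈ V (g i) := by
    intro i x y hx hxy
    obtain ⟨_, i', hx', hy'⟩ := hxy
    by_cases he : i' = g i
    · rw [← he]; exact hy'
    · exact absurd hx (Finset.disjoint_left.1 (hVd i' (g i) he) hx')
  obtain ⟨O⟩ := yardstick U (Fg H V) hFU X Y D h P p t hP hdis (d * (d * h))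
    (fun i => V (g i)) (fun i => hVD _) (fun i j hij => hVd _ _ fun e => hij (hginj e)) hVcF hVF
    hmin q ρ hρ f hfinj (fun j => (Finset.mem_erase.1 (hfA j)).1)
    (fun i j => hmeetA i (f j) (Finset.mem_erase.1 (hfA j)).2) (fun i => hmeetA i q hq) d hd le_rfl
  exact O.mono hUH

end GRT
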