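import Pool.Agent.GRT.Kmn

/-! # GRT GFIN: the grid theorem for brambles -/

set_option autoImplicit false
set_option linter.unusedVariables false
set_option linter.unusedSectionVars false

namespace GRT

open SimpleGraph DWH

theorem grid_of_top {W : Type} {H : SimpleGraph W} (n : ℕ)
    (h : DWK.Mnr (⊤ : SimpleGraph (Fin (n * n))) H) : DWK.Mnr (DWK.gridG n) H := by
  obtain ⟨B, hB⟩ := h
  refine ⟨fun u => B (finProdFinEquiv u), fun u => hB.ne _, fun u => hB.cn _, ?_, ?_⟩
  · intro u v huv
    exact hB.dj _ _ fun e => huv (finProdFinEquiv.injective e)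
  · intro u v huv
    exact hB.adj _ _ fun e => huv.ne (finProdFinEquiv.injective e)

theorem grid_thm : DWK.GT := by
  intro n
  obtain ⟨h, h1, hh⟩ := comb_minor n (n * n)
  refine ⟨2 * h, ?_⟩
  intro V _ G hG
  classical
  haveI := Fintype.ofFinite V
  obtain ⟨𝓑, hB, hN⟩ := hG
  obtain ⟨c⟩ := exists_comb G 𝓑 hB h h1 hN
  rcases hh V G c with h | h
  · exact h
  · exact grid_of_top n h

end GRT
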