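import Pool.Agent.GRT.Lkd

/-! # GRT GTU: good tuples in a connected graph

PROOF of `good_tuple`. `r = 0`: trivial (`Fin 0`). Let `o : Fin ρ` be any vertex (`ρ > 0`). `Λ` is connected (`Cn Λ univ`), so the distance `Λ.dist o v` is finite
(`Λ.Connected`, use `cn_iff_induce` or build a walk from the `ReflTransGen` chain). Let `w` be a vertex with maximal distance.
(a) If `r ≤ Λ.dist o w + 1`: take a shortest walk from `o` to `w`, `a i = ` its vertex number `i` (`i : Fin r`, `i ≤ dist o w`): injective since `dist o (a i) = i`, and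
consecutive ones are adjacent: `C = {a i, a j}`.
(b) Otherwise all distances are `≤ r - 2 < r`; `ρ > r * r` vertices and at most `r` values of the distance, so some value `m` is taken at least `r` times
(pigeonhole): `a : Fin r → Fin ρ` injective with `dist o (a i) = m`. For `i ≠ j` let `C` be the union of the vertex sets of shortest walks from `o` to `a i` and from `o`
to `a j`: connected, and a vertex on a shortest walk from `o` to `a i` at distance `m` from `o` is `a i` itself, so `a l ∉ C` for `l ≠ i, j`.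
A version without `dist`: fine too. -/

set_option autoImplicit false
set_option linter.unusedVariables false
set_option linter.unusedSectionVars false

namespace GRT

open SimpleGraph DWH

private theorem gt_pred {ρ : ℕ} {Λ : SimpleGraph (Fin ρ)} (hc : Λ.Connected) (o : Fin ρ) {n : ℕ}
    {v : Fin ρ} (hv : Λ.dist o v = n + 1) : ∃ u, Λ.Adj u v ∧ Λ.dist o u = n := by
  obtain ⟨q, hq⟩ := (hc v o).exists_walk_length_eq_dist
  rw [SimpleGraph.dist_comm, hv] at hq
  cases q with
  | nil =>
    rw [SimpleGraph.Walk.length_nil] at hq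
    omega
  | @cons _ u _ h q' =>
    rw [SimpleGraph.Walk.length_cons] at hq
    refine ⟨u, h.symm, ?_⟩
    have h1 : Λ.dist u o ≤ n := by
      have := SimpleGraph.dist_le q'
      omega
    rw [SimpleGraph.dist_comm] at h1
    have h2 : Λ.dist o v ≤ Λ.dist o u + Λ.dist u v := hc.dist_triangle
    have h3 : Λ.dist u v = 1 := SimpleGraph.dist_eq_one_iff_adj.2 h.symm
    omega

private theorem gt_seq {ρ : ℕ} {Λ : SimpleGraph (Fin ρ)} (hc : Λ.Connected) (o : Fin ρ) :
    ∀ (n : ℕ) (v : Fin ρ), Λ.dist o v = n → ∃ f : ℕ → Fin ρ, f n = v ∧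
      (∀ i < n, Λ.Adj (f i) (f (i + 1))) ∧ ∀ i ≤ n, Λ.dist o (f i) = i := by
  intro n
  induction n with
  | zero =>
    intro v hv
    refine ⟨fun _ => v, rfl, fun i hi => absurd hi (by omega), fun i hi => ?_⟩
    have : i = 0 := by omega
    rw [this]
    exact hv
  | succ n ih =>
    intro v hv
    obtain ⟨u, h1, h2⟩ := gt_pred hc o hv
    obtain ⟨f, f1, f2, f3⟩ := ih u h2
    refine ⟨fun i => if i ≤ n then f i else v, ?_, ?_, ?_⟩
    · show (if n + 1 ≤ n then f (n + 1) else v) = v
      rw [if_neg (by omega)]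
    · intro i hi
      show Λ.Adj (if i ≤ n then f i else v) (if i + 1 ≤ n then f (i + 1) else v)
      rw [if_pos (by omega)]
      by_cases h3 : i + 1 ≤ n
      · rw [if_pos h3]
        exact f2 i h3
      · rw [if_neg h3]
        have h4 : i = n := by omega
        rw [h4, f1]
        exact h1
    · intro i hi
      show Λ.dist o (if i ≤ n then f i else v) = i
      by_cases h3 : i ≤ n
      · rw [if_pos h3]
        exact f3 i h3
      · rw [if_neg h3, hv]
        omega

private theorem gt_set {ρ : ℕ} {Λ : SimpleGraph (Fin ρ)} (hc : Λ.Connected) (o : Fin ρ) :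
    ∀ (n : ℕ) (v : Fin ρ), Λ.dist o v = n → ∃ P : Set (Fin ρ), Cn Λ P ∧ o ∈ P ∧ v ∈ P ∧
      ∀ x ∈ P, Λ.dist o x ≤ n ∧ (Λ.dist o x = n → x = v) := by
  intro n
  induction n with
  | zero =>
    intro v hv
    have h1 : o = v := (hc o v).dist_eq_zero_iff.1 hv
    refine ⟨{v}, cn_singleton v, h1, rfl, ?_⟩
    intro x hx
    have hx' : x = v := hx
    rw [hx']
    exact ⟨hv.le, fun _ => rfl⟩
  | succ n ih =>
    intro v hv
    obtain ⟨u, h1, h2⟩ := gt_pred hc o hv
    obtain ⟨P, p1, p2, p3, p4⟩ := ih u h2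
    refine ⟨P ∪ {v}, p1.union_of_adj (cn_singleton v) p3 rfl h1, Or.inl p2, Or.inr rfl, ?_⟩
    rintro x (hx | hx)
    · have := (p4 x hx).1
      exact ⟨by omega, fun h => absurd h (by omega)⟩
    · have hx' : x = v := hx
      rw [hx']
      exact ⟨hv.le, fun _ => rfl⟩

theorem good_tuple (r ρ : ℕ) (hρ : r * r < ρ) (Λ : SimpleGraph (Fin ρ))
    (hΛ : Cn Λ (Set.univ : Set (Fin ρ))) :
    ∃ a : Fin r → Fin ρ, Function.Injective a ∧ ∀ i j : Fin r, (i : ℕ) + 1 = j →
      ∃ C : Set (Fin ρ), Cn Λ C ∧ a i ∈ C ∧ a j ∈ C ∧ ∀ l, l ≠ i → l ≠ j → a l ∉ C := by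
  have h0 : 0 < ρ := by omega
  have hc : Λ.Connected := by
    have h1 := (cn_iff_induce (H := Λ) (S := (Set.univ : Set (Fin ρ))) ⟨⟨0, h0⟩, trivial⟩).1 hΛ
    exact (SimpleGraph.induceUnivIso Λ).connected_iff.1 h1
  obtain ⟨o⟩ : Nonempty (Fin ρ) := ⟨⟨0, h0⟩⟩
  have : Nonempty (Fin ρ) := ⟨o⟩
  obtain ⟨w, hw⟩ := Finite.exists_max fun v => Λ.dist o v
  by_cases hr : r ≤ Λ.dist o w + 1
  · obtain ⟨f, -, h2, h3⟩ := gt_seq hc o _ w rfl
    have hinj : Function.Injective fun i : Fin r => f i := by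
      intro i j hij
      have hij' : f i = f j := hij
      have h4 := h3 i (by have := i.2; omega)
      have h5 := h3 j (by have := j.2; omega)
      rw [hij', h5] at h4
      exact Fin.ext h4.symm
    refine ⟨fun i => f i, hinj, ?_⟩
    intro i j hij
    refine ⟨{f i} ∪ {f j}, ?_, Or.inl rfl, Or.inr rfl, ?_⟩
    · refine (cn_singleton (f i)).union_of_adj (cn_singleton (f j)) (a := f i) (b := f j) rfl rfl ?_
      have := h2 i (by have := j.2; omega)
      rw [hij] at this
      exact this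
    · rintro l hl hl' (h | h)
      · exact hl (hinj h)
      · exact hl' (hinj h)
  · have hlt : ∀ v, Λ.dist o v < r := fun v => by
      have := hw v
      omega
    obtain ⟨m, -, hm⟩ := Finset.exists_lt_card_fiber_of_mul_lt_card_of_maps_to
      (s := (Finset.univ : Finset (Fin ρ))) (t := Finset.range r) (f := fun v => Λ.dist o v)
      (n := r) (fun v _ => Finset.mem_range.2 (hlt v)) (by simpa using hρ)
    refine ⟨Finset.orderEmbOfCardLe _ hm.le, (Finset.orderEmbOfCardLe _ hm.le).injective, ?_⟩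
    have hd : ∀ i, Λ.dist o (Finset.orderEmbOfCardLe _ hm.le i) = m := fun i =>
      (Finset.mem_filter.1 (Finset.orderEmbOfCardLe_mem _ hm.le i)).2
    intro i j hij
    obtain ⟨P, p1, p2, p3, p4⟩ := gt_set hc o m _ (hd i)
    obtain ⟨Q, q1, q2, q3, q4⟩ := gt_set hc o m _ (hd j)
    refine ⟨P ∪ Q, p1.union_of_inter q1 p2 q2, Or.inl p3, Or.inr q3, ?_⟩
    rintro l hl hl' (h | h)
    · exact hl ((Finset.orderEmbOfCardLe _ hm.le).injective ((p4 _ h).2 (hd l)))
    · exact hl' ((Finset.orderEmbOfCardLe _ hm.le).injective ((q4 _ h).2 (hd l)))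

end GRT
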