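import Pool.Agent.GRT.Crs

/-! # GRT MLN: many linkages: disjoint representatives or a grid

PROOF of `linkages`. Induction on `M`. `M = 0`: `K = 0`, the families are empty. `M + 1`: let `s` be the number for `M`, `(h, K0) = cross r s`, `K = max h (M * K0 + 1)`.
Given the linkages, split `Fin (M + 1)` in `0` and `i.succ`. For `0`: disjoint paths `P i` (`i : Fin K`) from `a i ∈ X 0` to `b i ∈ Y 0`. `V i = (P i).erase (a i) |>.erase (b i)`:
contained in `D` (`P i ∩ X 0 = {a i}`, `P i ∩ Y 0 = {b i}`, `P i ⊆ X 0 ∪ D ∪ Y 0`), pairwise disjoint, and connected: `a i ≠ b i` since `X 0`, `Y 0` are disjoint;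
`Pth.drop_last` gives that `P i` without `b i` is a path from `a i` to some `z`; if `z = a i` then this path is the single vertex (or: `V i` is empty);
otherwise `Pth.symm`, `Pth.drop_last` again. (Write a lemma `cn_inner`.)
For `ℓ : Fin M` apply `cross` to `X ℓ.succ, Y ℓ.succ, D` and `V` (`Lk.of_le` to get `h`): a grid (done) or fewer than `K0` bad indices. If there is never a grid,
fewer than `M * K0 + 1 ≤ K` indices are bad for some `ℓ` (`M * (K0 - 1) ≤ M * K0`), so there is `i : Fin K` with `Lk H (X ℓ.succ) (Y ℓ.succ) (D \ V i) s` for all `ℓ`. Apply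
the induction hypothesis to `D' = D \ V i`: a grid, or disjoint paths `P' ℓ ⊆ X ℓ.succ ∪ D' ∪ Y ℓ.succ`. `P i = {a i, b i} ∪ V i` is disjoint from `P' ℓ`: `a i ∈ X 0`,
`b i ∈ Y 0` are not in `D` nor in the other sets, `V i ⊆ D` is disjoint from `X ℓ.succ`, `Y ℓ.succ`, `D'`. Combine with `Fin.cons`. -/

set_option autoImplicit false
set_option linter.unusedVariables false
set_option linter.unusedSectionVars false

namespace GRT

open SimpleGraph DWH

private theorem mln_loop {W : Type} [DecidableEq W] {H : SimpleGraph W} {S : Finset W} {a : W}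
    (h : Pth H S a a) : S = {a} := by
  obtain ⟨l, ⟨h1, h2, h3, h4⟩, h5⟩ := h
  subst h5
  cases l with
  | nil => simp at h3
  | cons c t =>
    simp only [List.head?_cons, Option.some.injEq] at h3
    subst h3
    have ht : t = [] := by
      by_contra hne
      have h6 : t.getLast? = some c := by
        rw [← h4]
        cases t with
        | nil => exact absurd rfl hne
        | cons b t => simp [List.getLast?_cons]
      exact (List.nodup_cons.1 h1).1 (List.mem_of_mem_getLast? h6)
    subst ht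
    simp

theorem cn_inner {W : Type} [Fintype W] [DecidableEq W] {H : SimpleGraph W} {P : Finset W}
    {a b : W} (hP : Pth H P a b) (hab : a ≠ b) :
    Cn H ((((P.erase a).erase b : Finset W)) : Set W) := by
  obtain ⟨z, hz, h1⟩ := hP.drop_last hab
  rw [Finset.erase_right_comm]
  by_cases hza : z = a
  · subst hza
    rw [mln_loop h1]
    intro x hx
    simp at hx
  · obtain ⟨z', _, h2⟩ := h1.symm.drop_last hza
    exact h2.cn

theorem linkages (r M : ℕ) : ∃ K : ℕ, ∀ (W : Type) [Fintype W] [DecidableEq W]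
    (H : SimpleGraph W) (D : Finset W) (X Y : Fin M → Finset W),
    (∀ i, Disjoint (X i) D) → (∀ i, Disjoint (Y i) D) → (∀ i j, Disjoint (X i) (Y j)) →
    (∀ i j, i ≠ j → Disjoint (X i) (X j)) → (∀ i j, i ≠ j → Disjoint (Y i) (Y j)) →
    (∀ i, Lk H (X i) (Y i) D K) →
    DWK.Mnr (DWK.gridG r) H ∨ ∃ (P : Fin M → Finset W) (s t : Fin M → W),
      (∀ i, XY H (X i) (Y i) D (P i) (s i) (t i)) ∧ ∀ i j, i ≠ j → Disjoint (P i) (P j) := by
  induction M with
  | zero =>
    refine ⟨0, fun W _ _ H D X Y _ _ _ _ _ _ => Or.inr ⟨fun i => i.elim0, fun i => i.elim0,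
      fun i => i.elim0, fun i => i.elim0, fun i => i.elim0⟩⟩
  | succ M ih =>
    obtain ⟨s, hs⟩ := ih
    obtain ⟨h, K0, hsh, hcr⟩ := cross r s
    refine ⟨max h (M * K0 + 1), ?_⟩
    intro W _ _ H D X Y hXD hYD hXY hXX hYY hL
    by_cases hg : DWK.Mnr (DWK.gridG r) H
    · exact Or.inl hg
    obtain ⟨P, a, b, hP, hPd⟩ := hL 0
    have ha : ∀ i, a i ∈ X 0 := by
      intro i
      have h1 : a i ∈ P i ∩ X 0 := by
        rw [(hP i).2.1]
        exact Finset.mem_singleton_self _
      exact (Finset.mem_inter.1 h1).2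
    have hb : ∀ i, b i ∈ Y 0 := by
      intro i
      have h1 : b i ∈ P i ∩ Y 0 := by
        rw [(hP i).2.2.1]
        exact Finset.mem_singleton_self _
      exact (Finset.mem_inter.1 h1).2
    have hab : ∀ i, a i ≠ b i := by
      intro i h1
      exact Finset.disjoint_left.1 (hXY 0 0) (ha i) (h1 ▸ hb i)
    obtain ⟨V, hV⟩ : ∃ V : Fin (max h (M * K0 + 1)) → Finset W,
        ∀ i, V i = ((P i).erase (a i)).erase (b i) := ⟨_, fun _ => rfl⟩
    have hVP : ∀ i, V i ⊆ P i := by
      intro i
      rw [hV]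
      exact (Finset.erase_subset _ _).trans (Finset.erase_subset _ _)
    have hPV : ∀ i, ∀ x ∈ P i, x = a i ∨ x = b i ∨ x ∈ V i := by
      intro i x hx
      by_cases h1 : x = a i
      · exact Or.inl h1
      · by_cases h2 : x = b i
        · exact Or.inr (Or.inl h2)
        · refine Or.inr (Or.inr ?_)
          rw [hV]
          exact Finset.mem_erase.2 ⟨h2, Finset.mem_erase.2 ⟨h1, hx⟩⟩
    have hVD : ∀ i, V i ⊆ D := by
      intro i x hx
      have hxP := hVP i hx
      rw [hV, Finset.mem_erase, Finset.mem_erase] at hx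
      have h1 := (hP i).2.2.2 hxP
      rw [Finset.mem_union, Finset.mem_union] at h1
      rcases h1 with (h1 | h1) | h1
      · have h2 : x ∈ P i ∩ X 0 := Finset.mem_inter.2 ⟨hxP, h1⟩
        rw [(hP i).2.1, Finset.mem_singleton] at h2
        exact absurd h2 hx.2.1
      · exact h1
      · have h2 : x ∈ P i ∩ Y 0 := Finset.mem_inter.2 ⟨hxP, h1⟩
        rw [(hP i).2.2.1, Finset.mem_singleton] at h2
        exact absurd h2 hx.1
    have hVd : ∀ i j, i ≠ j → Disjoint (V i) (V j) := fun i j hij =>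
      Finset.disjoint_of_subset_left (hVP i) (Finset.disjoint_of_subset_right (hVP j) (hPd i j hij))
    have hVc : ∀ i, Cn H (V i : Set W) := by
      intro i
      rw [hV]
      exact cn_inner (hP i).1 (hab i)
    have hbad : ∀ ℓ : Fin M, ∀ T : Finset (Fin (max h (M * K0 + 1))),
        (∀ i ∈ T, ¬ Lk H (X ℓ.succ) (Y ℓ.succ) (D \ V i) s) → T.card < K0 := fun ℓ =>
      (hcr W H (X ℓ.succ) (Y ℓ.succ) D (Lk.of_le (le_max_left _ _) (hL ℓ.succ)) _ V hVD hVd
        hVc).resolve_left hg
    classical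
    obtain ⟨i, hi⟩ : ∃ i, ∀ ℓ : Fin M, Lk H (X ℓ.succ) (Y ℓ.succ) (D \ V i) s := by
      by_contra hcon
      push Not at hcon
      have h1 : (Finset.univ : Finset (Fin (max h (M * K0 + 1)))) ⊆
          (Finset.univ : Finset (Fin M)).biUnion fun ℓ =>
            Finset.univ.filter fun i => ¬ Lk H (X ℓ.succ) (Y ℓ.succ) (D \ V i) s := by
        intro i _
        obtain ⟨ℓ, hℓ⟩ := hcon i
        exact Finset.mem_biUnion.2 ⟨ℓ, Finset.mem_univ _, Finset.mem_filter.2
          ⟨Finset.mem_univ _, hℓ⟩⟩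
      have h2 := (Finset.card_le_card h1).trans Finset.card_biUnion_le
      have h3 : ∑ ℓ : Fin M, (Finset.univ.filter fun i =>
          ¬ Lk H (X ℓ.succ) (Y ℓ.succ) (D \ V i) s).card ≤ M * K0 := by
        refine (Finset.sum_le_card_nsmul _ _ K0 fun ℓ _ => ?_).trans ?_
        · exact (hbad ℓ _ fun i hi => (Finset.mem_filter.1 hi).2).le
        · rw [Finset.card_univ, Fintype.card_fin, smul_eq_mul]
      rw [Finset.card_univ, Fintype.card_fin] at h2
      have h4 := le_max_right h (M * K0 + 1)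
      omega
    rcases hs W H (D \ V i) (fun ℓ => X ℓ.succ) (fun ℓ => Y ℓ.succ)
      (fun ℓ => Finset.disjoint_of_subset_right Finset.sdiff_subset (hXD _))
      (fun ℓ => Finset.disjoint_of_subset_right Finset.sdiff_subset (hYD _))
      (fun ℓ ℓ' => hXY _ _)
      (fun ℓ ℓ' hne => hXX _ _ fun h1 => hne (Fin.succ_injective _ h1))
      (fun ℓ ℓ' hne => hYY _ _ fun h1 => hne (Fin.succ_injective _ h1)) hi with h1 | h1
    · exact absurd h1 hg
    obtain ⟨P', s', t', hP', hPd'⟩ := h1
    have hdis : ∀ ℓ : Fin M, Disjoint (P i) (P' ℓ) := by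
      intro ℓ
      rw [Finset.disjoint_left]
      intro x hx hx'
      have h2 := (hP' ℓ).2.2.2 hx'
      rw [Finset.mem_union, Finset.mem_union, Finset.mem_sdiff] at h2
      rcases hPV i x hx with h3 | h3 | h3
      · have h4 : x ∈ X 0 := h3 ▸ ha i
        rcases h2 with (h2 | h2) | h2
        · exact Finset.disjoint_left.1 (hXX 0 ℓ.succ (Fin.succ_ne_zero ℓ).symm) h4 h2
        · exact Finset.disjoint_left.1 (hXD 0) h4 h2.1
        · exact Finset.disjoint_left.1 (hXY 0 ℓ.succ) h4 h2
      · have h4 : x ∈ Y 0 := h3 ▸ hb i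
        rcases h2 with (h2 | h2) | h2
        · exact Finset.disjoint_left.1 (hXY ℓ.succ 0) h2 h4
        · exact Finset.disjoint_left.1 (hYD 0) h4 h2.1
        · exact Finset.disjoint_left.1 (hYY 0 ℓ.succ (Fin.succ_ne_zero ℓ).symm) h4 h2
      · have h4 := hVD i h3
        rcases h2 with (h2 | h2) | h2
        · exact Finset.disjoint_left.1 (hXD ℓ.succ) h2 h4
        · exact h2.2 h3
        · exact Finset.disjoint_left.1 (hYD ℓ.succ) h2 h4
    refine Or.inr ⟨Fin.cons (P i) P', Fin.cons (a i) s', Fin.cons (b i) t', ?_, ?_⟩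
    · intro ℓ
      refine Fin.cases ?_ (fun ℓ => ?_) ℓ
      · rw [Fin.cons_zero, Fin.cons_zero, Fin.cons_zero]
        exact hP i
      · rw [Fin.cons_succ, Fin.cons_succ, Fin.cons_succ]
        obtain ⟨h2, h3, h4, h5⟩ := hP' ℓ
        refine ⟨h2, h3, h4, h5.trans ?_⟩
        exact Finset.union_subset_union (Finset.union_subset_union subset_rfl Finset.sdiff_subset)
          subset_rfl
    · intro ℓ ℓ'
      refine Fin.cases ?_ (fun ℓ => ?_) ℓ
      · refine Fin.cases ?_ (fun ℓ' => ?_) ℓ'
        · exact fun h1 => absurd rfl h1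
        · intro _
          rw [Fin.cons_zero, Fin.cons_succ]
          exact hdis ℓ'
      · refine Fin.cases ?_ (fun ℓ' => ?_) ℓ'
        · intro _
          rw [Fin.cons_zero, Fin.cons_succ]
          exact (hdis ℓ).symm
        · intro h1
          rw [Fin.cons_succ, Fin.cons_succ]
          exact hPd' ℓ ℓ' fun h2 => h1 (by rw [h2])

end GRT
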