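import Pool.Agent.GRT.Kms
import Pool.Agent.GRT.Mln

/-! # GRT KMN: a comb gives a complete minor or a grid minor

PROOF of `comb_minor`. `K = ` the number of `linkages r (m * m)`, `g = 2 * m * K`, `h = m * g + 1` (or `m * g`; `Comb` with more teeth restricts to fewer, see below; the numbers
`u * g + (b * m + v) * K + κ < m * g` for `u, v < m`, `b < 2`, `κ < K` are all different). Tooth number `N(u, b, v, κ) = u * g + (b * m + v) * K + κ`. For the pair `(u, v)` (number
`e : Fin (m * m)`, `finProdFinEquiv`): `X e = {s (N(u, 0, v, κ)) | κ < K}`, `Y e = {s (N(v, 1, u, κ)) | κ < K}`, with `K` elements each, all these sets are pairwise disjoint (`s` is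
injective because the teeth are disjoint, `s i ∈ T i`), and disjoint from `D = C` (`CT`). `ext` gives `Lk H (X e) (Y e) C K`. `linkages`: a grid (done) or disjoint paths
`P e` from `a e ∈ X e` to `b e ∈ Y e`, inside `X e ∪ C ∪ Y e`, `P e ∩ X e = {a e}`, `P e ∩ Y e = {b e}`. For `u : Fin m`:
`B u` = the part of the spine between the positions `pos (u g)` and `pos (u g + g - 1)`, the teeth with numbers in `[u g, (u + 1) g)`, and for all `v` the path `P (u, v)` without its last vertex
`b (u, v)`. Connected: the spine part is connected and contains the first vertices of these teeth; the path without last vertex is connected and contains `a (u, v)`, which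
is in a tooth of the group `u` (if `K = 0`: then there are no paths; assume `K ≥ 1` by taking the maximum with `1`; if `m = 0` trivial). Disjoint for `u ≠ u'`: spine parts
(disjoint intervals of positions: `pos` strictly increasing), teeth (`dis`), tooth and spine (`tl`: only `p i`, which is in its own spine part), `C`-parts of paths are
disjoint from spine and teeth, `a (u, v)` is in a tooth of group `u`; paths are disjoint. Adjacent: for `u ≠ v` the last edge of `P (u, v)` (from the vertex before `b (u, v)`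
to `b (u, v)` which is in a tooth of group `v`). -/

set_option autoImplicit false
set_option linter.unusedVariables false
set_option linter.unusedSectionVars false

namespace GRT

open SimpleGraph DWH

variable {W : Type} [Fintype W] [DecidableEq W]

private theorem kmn_p {H : SimpleGraph W} {h : ℕ} (c : Comb H h) (i : Fin h) :
    c.p i ∈ c.T i ∧ c.p i ∈ c.l := by
  have h1 : c.p i ∈ c.T i ∩ c.l.toFinset := by
    rw [c.tl i]
    exact Finset.mem_singleton_self _
  rw [Finset.mem_inter, List.mem_toFinset] at h1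
  exact h1

/-- the first and the last tooth of a group -/
private theorem kmn_grp {m g h : ℕ} (hh : m * g ≤ h) (u : Fin m) (hg : 0 < g) :
    ∃ i j : Fin h, (i : ℕ) = u * g ∧ (j : ℕ) = u * g + (g - 1) := by
  have h1 : ((u : ℕ) + 1) * g ≤ m * g := Nat.mul_le_mul_right g u.2
  rw [Nat.add_mul, one_mul] at h1
  exact ⟨⟨u * g, by omega⟩, ⟨u * g + (g - 1), by omega⟩, rfl, rfl⟩

private theorem kmn_div {g u i : ℕ} (hg : 0 < g) (h : i / g = u) :
    u * g ≤ i ∧ i ≤ u * g + (g - 1) := by
  have h1 := Nat.div_add_mod i g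
  have h2 := Nat.mod_lt i hg
  rw [h, mul_comm] at h1
  omega

/-- the minor model of the complete graph -/
private theorem kmn_model {H : SimpleGraph W} {h m g : ℕ} (c : Comb H h) {pos : Fin h → ℕ}
    (hpos : StrictMono pos) (hl : ∀ i, c.l[pos i]? = some (c.p i)) (hg : Fin m → 0 < g)
    (hh : m * g ≤ h) {Q : Fin m → Fin m → Finset W} {a b : Fin m → Fin m → W}
    (hQ : ∀ u v, Pth H (Q u v) (a u v) (b u v))
    (ha : ∀ u v : Fin m, ∃ i : Fin h, (i : ℕ) / g = (u : ℕ) ∧ a u v ∈ c.T i)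
    (hb : ∀ u v : Fin m, ∃ i : Fin h, (i : ℕ) / g = (v : ℕ) ∧ b u v ∈ c.T i)
    (hQc : ∀ u v, ∀ w ∈ Q u v, w ≠ b u v → w = a u v ∨ w ∈ c.C)
    (hQd : ∀ u v u' v', u ≠ u' → Disjoint (Q u v) (Q u' v')) :
    DWK.Mnr (⊤ : SimpleGraph (Fin m)) H := by
  have hdis : ∀ (i j : Fin h) w, w ∈ c.T i → w ∈ c.T j → i = j := by
    intro i j w hi hj
    by_contra hne
    exact Finset.disjoint_left.1 (c.dis i j hne) hi hj
  have hfl := fun u : Fin m => kmn_grp hh u (hg u)
  choose fi la hfi hla using hfl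
  -- the three parts
  let Sp : Fin m → Set W := fun u => ((seg c.l (pos (fi u)) (pos (la u)) : Finset W) : Set W)
  let Te : Fin m → Set W := fun u => {w | ∃ i : Fin h, (i : ℕ) / g = (u : ℕ) ∧ w ∈ c.T i}
  let Pa : Fin m → Set W := fun u => {w | ∃ v, v ≠ u ∧ w ∈ Q u v ∧ w ≠ b u v}
  let B : Fin m → Set W := fun u => Sp u ∪ Te u ∪ Pa u
  have hle : ∀ u, pos (fi u) ≤ pos (la u) := fun u => hpos.monotone (by
    rw [Fin.le_def, hfi, hla]
    exact Nat.le_add_right _ _)
  have hin : ∀ (u : Fin m) (i : Fin h), (i : ℕ) / g = (u : ℕ) → pos (fi u) ≤ pos i ∧ pos i ≤ pos (la u) := by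
    intro u i hi
    have h1 := kmn_div (hg u) hi
    exact ⟨hpos.monotone (by rw [Fin.le_def, hfi]; exact h1.1),
      hpos.monotone (by rw [Fin.le_def, hla]; exact h1.2)⟩
  have hpS : ∀ (u : Fin m) (i : Fin h), (i : ℕ) / g = (u : ℕ) → c.p i ∈ Sp u := by
    intro u i hi
    obtain ⟨h1, h2⟩ := hin u i hi
    exact Finset.mem_coe.2 (mem_seg.2 ⟨pos i, h1, h2, hl i⟩)
  have hfg : ∀ u : Fin m, ((fi u : Fin h) : ℕ) / g = (u : ℕ) := by
    intro u
    rw [hfi, Nat.mul_div_cancel _ (hg u)]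
  -- every point is joined to the first point of the spine part
  have hSc : ∀ u, Cn H (Sp u) := fun u => (seg_pth c.nodup c.chain (hle u) (hl _) (hl _)).cn
  have hcen : ∀ u, ∀ w ∈ B u, Relation.ReflTransGen (Stp H (B u)) w (c.p (fi u)) := by
    intro u w hw
    have hS : Sp u ⊆ B u := fun x hx => Or.inl (Or.inl hx)
    have hT : ∀ w ∈ Te u, Relation.ReflTransGen (Stp H (B u)) w (c.p (fi u)) := by
      rintro w ⟨i, hi, hwi⟩
      have h1 : Relation.ReflTransGen (Stp H ((c.T i : Finset W) : Set W)) w (c.p i) :=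
        (c.pth i).cn w hwi _ (kmn_p c i).1
      have h2 : ((c.T i : Finset W) : Set W) ⊆ B u := fun x hx => Or.inl (Or.inr ⟨i, hi, hx⟩)
      exact (rtg_mono h2 h1).trans
        (rtg_mono hS (hSc u _ (hpS u i hi) _ (hpS u _ (hfg u))))
    rcases hw with (hw | hw) | hw
    · exact rtg_mono hS (hSc u w hw _ (hpS u _ (hfg u)))
    · exact hT w hw
    · obtain ⟨v, hv, hwQ, hwb⟩ := hw
      obtain ⟨i, hi, hai⟩ := ha u v
      obtain ⟨j, hj, hbj⟩ := hb u v
      have hab : a u v ≠ b u v := by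
        intro e
        rw [e] at hai
        have := hdis i j _ hai hbj
        subst this
        exact hv (Fin.ext (hj.symm.trans hi))
      obtain ⟨z, -, hz⟩ := (hQ u v).drop_last hab
      have h1 : Relation.ReflTransGen (Stp H (((Q u v).erase (b u v) : Finset W) : Set W)) w
          (a u v) := hz.cn w (Finset.mem_coe.2 (Finset.mem_erase.2 ⟨hwb, hwQ⟩)) _
        (Finset.mem_coe.2 hz.left_mem)
      have h2 : (((Q u v).erase (b u v) : Finset W) : Set W) ⊆ B u := by
        intro x hx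
        have hx' := Finset.mem_erase.1 (Finset.mem_coe.1 hx)
        exact Or.inr ⟨v, hv, hx'.2, hx'.1⟩
      exact (rtg_mono h2 h1).trans (hT _ ⟨i, hi, hai⟩)
  -- spine parts of different groups are disjoint
  have hSS : ∀ u u', (u : Fin m) < u' → Disjoint (Sp u) (Sp u') := by
    intro u u' huu
    have h1 : pos (la u) < pos (fi u') := by
      apply hpos
      rw [Fin.lt_def, hla, hfi]
      have h2 : ((u : ℕ) + 1) * g ≤ (u' : ℕ) * g := Nat.mul_le_mul_right g huu
      rw [Nat.add_mul, one_mul] at h2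
      have h3 := hg u
      omega
    exact Finset.disjoint_coe.2 (seg_disjoint c.nodup h1)
  have hSS' : ∀ u u', u ≠ u' → ∀ w, w ∈ Sp u → w ∈ Sp u' → False := by
    intro u u' hne w h1 h2
    rcases lt_or_gt_of_ne hne with h | h
    · exact Set.disjoint_left.1 (hSS u u' h) h1 h2
    · exact Set.disjoint_left.1 (hSS u' u h) h2 h1
  have hST : ∀ u u', u ≠ u' → ∀ w, w ∈ Sp u → w ∈ Te u' → False := by
    rintro u u' hne w h1 ⟨i, hi, hwi⟩
    have h2 : w ∈ c.T i ∩ c.l.toFinset :=
      Finset.mem_inter.2 ⟨hwi, seg_subset _ _ _ (Finset.mem_coe.1 h1)⟩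
    rw [c.tl i, Finset.mem_singleton] at h2
    subst h2
    exact hSS' u u' hne _ h1 (hpS u' i hi)
  have hTT : ∀ u u', u ≠ u' → ∀ w, w ∈ Te u → w ∈ Te u' → False := by
    rintro u u' hne w ⟨i, hi, hwi⟩ ⟨j, hj, hwj⟩
    have h1 := hdis i j w hwi hwj
    subst h1
    exact hne (Fin.ext (hi.symm.trans hj))
  have hPa : ∀ u w, w ∈ Pa u → w ∈ Te u ∨ w ∈ c.C := by
    rintro u w ⟨v, hv, hwQ, hwb⟩
    rcases hQc u v w hwQ hwb with h1 | h1
    · obtain ⟨i, hi, hai⟩ := ha u v
      exact Or.inl ⟨i, hi, h1 ▸ hai⟩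
    · exact Or.inr h1
  have hSC : ∀ u w, w ∈ Sp u → w ∈ c.C → False := by
    intro u w h1 h2
    exact c.Cl w (List.mem_toFinset.1 (seg_subset _ _ _ (Finset.mem_coe.1 h1))) h2
  have hTC : ∀ u w, w ∈ Te u → w ∈ c.C → False := by
    rintro u w ⟨i, hi, hwi⟩ h2
    exact Finset.disjoint_left.1 (c.CT i) h2 hwi
  have hSP : ∀ u u', u ≠ u' → ∀ w, w ∈ Sp u → w ∈ Pa u' → False := by
    intro u u' hne w h1 h2
    rcases hPa u' w h2 with h3 | h3
    · exact hST u u' hne w h1 h3
    · exact hSC u w h1 h3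
  have hTP : ∀ u u', u ≠ u' → ∀ w, w ∈ Te u → w ∈ Pa u' → False := by
    intro u u' hne w h1 h2
    rcases hPa u' w h2 with h3 | h3
    · exact hTT u u' hne w h1 h3
    · exact hTC u w h1 h3
  refine ⟨B, ⟨fun u => ⟨c.p (fi u), Or.inl (Or.inl (hpS u _ (hfg u)))⟩, fun u x hx y hy => ?_,
    fun u u' hne => ?_, fun u v huv => ?_⟩⟩
  · exact (hcen u x hx).trans (rtg_symm (hcen u y hy))
  · rw [Set.disjoint_left]
    rintro w ((h1 | h1) | h1) ((h2 | h2) | h2)
    · exact hSS' u u' hne w h1 h2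
    · exact hST u u' hne w h1 h2
    · exact hSP u u' hne w h1 h2
    · exact hST u' u hne.symm w h2 h1
    · exact hTT u u' hne w h1 h2
    · exact hTP u u' hne w h1 h2
    · exact hSP u' u hne.symm w h2 h1
    · exact hTP u' u hne.symm w h2 h1
    · obtain ⟨v, -, hwQ, -⟩ := h1
      obtain ⟨v', -, hwQ', -⟩ := h2
      exact Finset.disjoint_left.1 (hQd u v u' v' hne) hwQ hwQ'
  · have hne : u ≠ v := huv
    obtain ⟨i, hi, hai⟩ := ha u v
    obtain ⟨j, hj, hbj⟩ := hb u v
    have hab : a u v ≠ b u v := by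
      intro e
      rw [e] at hai
      have := hdis i j _ hai hbj
      subst this
      exact hne (Fin.ext (hi.symm.trans hj))
    obtain ⟨z, hzb, hz⟩ := (hQ u v).drop_last hab
    have hz' := Finset.mem_erase.1 hz.right_mem
    exact ⟨z, Or.inr ⟨v, hne.symm, hz'.2, hz'.1⟩, b u v, Or.inl (Or.inr ⟨j, hj, hbj⟩), hzb⟩

theorem comb_minor (r m : ℕ) : ∃ h : ℕ, 1 ≤ h ∧ ∀ (W : Type) [Fintype W] [DecidableEq W]
    (H : SimpleGraph W), Comb H h →
    DWK.Mnr (DWK.gridG r) H ∨ DWK.Mnr (⊤ : SimpleGraph (Fin m)) H := by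
  obtain ⟨K₀, hK₀⟩ := linkages r (m * m)
  obtain ⟨K, hK⟩ : ∃ K, K = K₀ + 1 := ⟨_, rfl⟩
  obtain ⟨g, hgd⟩ : ∃ g, g = 2 * (m * K) := ⟨_, rfl⟩
  refine ⟨m * g + 1, by omega, ?_⟩
  intro W _ _ H c0
  obtain ⟨c, pos, hpos, hl⟩ := sort_comb c0
  have hg : Fin m → 0 < g := by
    intro u
    have h1 : 0 < m := lt_of_le_of_lt (Nat.zero_le _) u.2
    rw [hgd, hK]
    positivity
  have hcard : Fintype.card (Fin 2 × Fin m × Fin K) = g := by simp [hgd]
  let E : Fin 2 × Fin m × Fin K ≃ Fin g := Fintype.equivFinOfCardEq hcard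
  have hN : ∀ (u : Fin m) (x : Fin 2 × Fin m × Fin K), (u : ℕ) * g + (E x : ℕ) < m * g + 1 := by
    intro u x
    have h2 := (E x).2
    have h3 : ((u : ℕ) + 1) * g ≤ m * g := Nat.mul_le_mul_right g u.2
    rw [Nat.add_mul, one_mul] at h3
    omega
  let N : Fin m → Fin 2 × Fin m × Fin K → Fin (m * g + 1) := fun u x => ⟨u * g + E x, hN u x⟩
  have hNd : ∀ u x, ((N u x : Fin (m * g + 1)) : ℕ) / g = (u : ℕ) := by
    intro u x
    show ((u : ℕ) * g + (E x : ℕ)) / g = (u : ℕ)
    rw [add_comm, Nat.add_mul_div_right _ _ (hg u), Nat.div_eq_of_lt (E x).2, zero_add]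
  have hNi : ∀ u x u' x', N u x = N u' x' → u = u' ∧ x = x' := by
    intro u x u' x' he
    have h1 : (u : ℕ) = (u' : ℕ) := by rw [← hNd u x, he, hNd]
    have h2 : (u : ℕ) * g + (E x : ℕ) = (u' : ℕ) * g + (E x' : ℕ) := congrArg Fin.val he
    rw [h1] at h2
    exact ⟨Fin.ext h1, E.injective (Fin.ext (Nat.add_left_cancel h2))⟩
  -- the ends of the teeth are different
  have hsT : ∀ i, c.s i ∈ c.T i := fun i => (c.pth i).right_mem
  have hsi : Function.Injective c.s := by
    intro i j hij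
    by_contra hne
    exact Finset.disjoint_left.1 (c.dis i j hne) (hsT i) (hij ▸ hsT j)
  let I : Fin 2 → Fin m → Fin m → Finset (Fin (m * g + 1)) := fun b u v =>
    Finset.univ.image fun κ : Fin K => N u (b, v, κ)
  have hI : ∀ b u v i, i ∈ I b u v → ∃ κ, i = N u (b, v, κ) := by
    intro b u v i hi
    obtain ⟨κ, -, h1⟩ := Finset.mem_image.1 hi
    exact ⟨κ, h1.symm⟩
  have hIc : ∀ b u v, (I b u v).card = K := by
    intro b u v
    rw [Finset.card_image_of_injective, Finset.card_univ, Fintype.card_fin]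
    intro κ κ' he
    have h1 := (hNi _ _ _ _ he).2
    exact (Prod.mk.inj (Prod.mk.inj h1).2).2
  have hId : ∀ b u v b' u' v', (b, u, v) ≠ (b', u', v') → Disjoint (I b u v) (I b' u' v') := by
    intro b u v b' u' v' hne
    rw [Finset.disjoint_left]
    intro i hi hi'
    obtain ⟨κ, h1⟩ := hI _ _ _ _ hi
    obtain ⟨κ', h2⟩ := hI _ _ _ _ hi'
    obtain ⟨h3, h4⟩ := hNi _ _ _ _ (h1.symm.trans h2)
    obtain ⟨h5, h6⟩ := Prod.mk.inj h4
    obtain ⟨h7, -⟩ := Prod.mk.inj h6
    exact hne (by rw [h5, h3, h7])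
  let e : Fin m × Fin m ≃ Fin (m * m) := finProdFinEquiv
  let X : Fin (m * m) → Finset W := fun k => (I 0 (e.symm k).1 (e.symm k).2).image c.s
  let Y : Fin (m * m) → Finset W := fun k => (I 1 (e.symm k).2 (e.symm k).1).image c.s
  have hsC : ∀ (J : Finset (Fin (m * g + 1))), Disjoint (J.image c.s) c.C := by
    intro J
    rw [Finset.disjoint_left]
    intro w hw hwC
    obtain ⟨i, -, rfl⟩ := Finset.mem_image.1 hw
    exact Finset.disjoint_left.1 (c.CT i) hwC (hsT i)
  have hek : ∀ k k' : Fin (m * m), k ≠ k' → e.symm k ≠ e.symm k' := fun k k' h h' =>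
    h (e.symm.injective h')
  rcases hK₀ W H c.C X Y (fun k => hsC _) (fun k => hsC _)
    (fun k k' => (Finset.disjoint_image hsi).2 (hId _ _ _ _ _ _ (by simp)))
    (fun k k' hne => (Finset.disjoint_image hsi).2 (hId _ _ _ _ _ _ (by
      intro he
      exact hek k k' hne (Prod.ext (Prod.mk.inj (Prod.mk.inj he).2).1
        (Prod.mk.inj (Prod.mk.inj he).2).2))))
    (fun k k' hne => (Finset.disjoint_image hsi).2 (hId _ _ _ _ _ _ (by
      intro he
      exact hek k k' hne (Prod.ext (Prod.mk.inj (Prod.mk.inj he).2).2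
        (Prod.mk.inj (Prod.mk.inj he).2).1))))
    (fun k => by
      have h1 := c.ext (I 0 (e.symm k).1 (e.symm k).2) (I 1 (e.symm k).2 (e.symm k).1)
        (hId _ _ _ _ _ _ (by simp)) (by rw [hIc, hIc])
      rw [hIc] at h1
      exact h1.of_le (by omega)) with h1 | ⟨P, a, b, hP, hPd⟩
  · exact Or.inl h1
  · refine Or.inr (kmn_model c hpos hl hg (by omega) (Q := fun u v => P (e (u, v)))
      (a := fun u v => a (e (u, v))) (b := fun u v => b (e (u, v)))
      (fun u v => (hP _).1) (fun u v => ?_) (fun u v => ?_) (fun u v w hw hwb => ?_)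
      (fun u v u' v' hne => hPd _ _ fun he => ?_))
    · have h1 : a (e (u, v)) ∈ P (e (u, v)) ∩ X (e (u, v)) := by
        rw [(hP _).2.1]
        exact Finset.mem_singleton_self _
      obtain ⟨i, hi, h2⟩ := Finset.mem_image.1 (Finset.mem_inter.1 h1).2
      rw [Equiv.symm_apply_apply] at hi
      obtain ⟨κ, h3⟩ := hI _ _ _ _ hi
      exact ⟨i, by rw [h3]; exact hNd _ _, by
        show a (e (u, v)) ∈ c.T i
        rw [← h2]; exact hsT i⟩
    · have h1 : b (e (u, v)) ∈ P (e (u, v)) ∩ Y (e (u, v)) := by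
        rw [(hP _).2.2.1]
        exact Finset.mem_singleton_self _
      obtain ⟨i, hi, h2⟩ := Finset.mem_image.1 (Finset.mem_inter.1 h1).2
      rw [Equiv.symm_apply_apply] at hi
      obtain ⟨κ, h3⟩ := hI _ _ _ _ hi
      exact ⟨i, by rw [h3]; exact hNd _ _, by
        show b (e (u, v)) ∈ c.T i
        rw [← h2]; exact hsT i⟩
    · have h1 := (hP (e (u, v))).2.2.2 hw
      rw [Finset.mem_union, Finset.mem_union] at h1
      rcases h1 with (h1 | h1) | h1
      · have h2 : w ∈ P (e (u, v)) ∩ X (e (u, v)) := Finset.mem_inter.2 ⟨hw, h1⟩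
        rw [(hP _).2.1, Finset.mem_singleton] at h2
        exact Or.inl h2
      · exact Or.inr h1
      · have h2 : w ∈ P (e (u, v)) ∩ Y (e (u, v)) := Finset.mem_inter.2 ⟨hw, h1⟩
        rw [(hP _).2.2.1, Finset.mem_singleton] at h2
        exact absurd h2 hwb
    · exact hne (Prod.mk.inj (e.injective he)).1

end GRT
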