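import Pool.Agent.GRT.Cmb

/-! # GRT KMS: sorting the teeth of a comb

`sort_comb`: the teeth can be numbered in the order of their first vertices on the spine: there is a comb with `pos` strictly increasing.

PROOF of `sort_comb`. `pos i` = the index of `p i` in `l` (exists: `p i ∈ T i ∩ l`), injective because the `p i` are different (`dis`). Let `σ` be the permutation of `Fin h` that
sorts `pos` (`Tuple.sort pos`, `Tuple.monotone_sort`; strictly monotone by injectivity) and reindex `T, p, s` by `σ`; `ext` for `I, J`: apply the old one to the
images `I.map σ`, `J.map σ`. -/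

set_option autoImplicit false
set_option linter.unusedVariables false
set_option linter.unusedSectionVars false

namespace GRT

open SimpleGraph DWH

variable {W : Type} [Fintype W] [DecidableEq W]

theorem sort_comb {H : SimpleGraph W} {h : ℕ} (c : Comb H h) :
    ∃ (c' : Comb H h) (pos : Fin h → ℕ), StrictMono pos ∧ ∀ i, c'.l[pos i]? = some (c'.p i) := by
  have hp : ∀ i, c.p i ∈ c.T i ∧ c.p i ∈ c.l := fun i => by
    have h1 : c.p i ∈ c.T i ∩ c.l.toFinset := by
      rw [c.tl i]
      exact Finset.mem_singleton_self _
    rw [Finset.mem_inter, List.mem_toFinset] at h1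
    exact h1
  have hpos : ∀ i, ∃ n, c.l[n]? = some (c.p i) := fun i => List.mem_iff_getElem?.1 (hp i).2
  choose pos hpos using hpos
  have hinj : Function.Injective pos := by
    intro i j hij
    by_contra hne
    have h1 := hpos i
    rw [hij, hpos j] at h1
    have h2 : c.p j = c.p i := Option.some.inj h1
    exact Finset.disjoint_left.1 (c.dis i j hne) (hp i).1 (h2 ▸ (hp j).1)
  let σ : Equiv.Perm (Fin h) := Tuple.sort pos
  have hmono : StrictMono (pos ∘ σ) :=
    (Tuple.monotone_sort pos).strictMono_of_injective (hinj.comp σ.injective)
  have himg : ∀ I : Finset (Fin h), I.image (c.s ∘ σ) = (I.map σ.toEmbedding).image c.s := by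
    intro I
    rw [Finset.map_eq_image, Finset.image_image]
    rfl
  refine ⟨{ l := c.l
            nodup := c.nodup
            chain := c.chain
            T := c.T ∘ σ
            p := c.p ∘ σ
            s := c.s ∘ σ
            pth := fun i => c.pth (σ i)
            tl := fun i => c.tl (σ i)
            dis := fun i j hij => c.dis _ _ (fun e => hij (σ.injective e))
            C := c.C
            CT := fun i => c.CT (σ i)
            Cl := c.Cl
            ext := fun I J hd hc => ?_ }, pos ∘ σ, hmono, fun i => hpos (σ i)⟩
  have h1 := c.ext (I.map σ.toEmbedding) (J.map σ.toEmbedding)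
    ((Finset.disjoint_map σ.toEmbedding).2 hd) (by rw [Finset.card_map, Finset.card_map, hc])
  rw [Finset.card_map] at h1
  rw [himg, himg]
  exact h1

end GRT
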