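import Pool.Agent.DWH.Link
import Pool.Agent.DWH.Cov

/-! # GRT LKD: linkages (MP_778ed5_co, grid theorem)

The grid theorem: a finite graph with a bramble of large order has a large grid minor. Plan of the directory `GRT`:
`Sel` (a path `l` and a least separator `S` behind it), `Cmb` (comb: disjoint teeth from `l` to `S`, `S` externally linked through `C`),
`Oc` (ordered crossing; edge minimal union of a linkage and the verticals), `Yra`, `Yrb`, `Yrd` (yardstick argument: ordered crossing), `Crs` (one linkage and many verticals),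
`Mln` (many linkages: disjoint representatives or a grid), `Gtu`, `Cnn`, `Rcg` (ordered crossing gives a grid), `Kmn` (comb gives `K_m` or a grid), `Gfin`.

Definitions of this file: `Jn H A x y` (`x` and `y` are joined inside `A`), `XY H X Y D P s t` (an `X`-`Y` path with inner vertices in `D`),
`Lk H X Y D n` (`n` disjoint such paths).

PROOFS. `Jn` lemmas: as for `Av` in `DWH/Menger.lean`. `Jn.exit`: induction on the chain: the first vertex of the chain in `G`.
`lk_of_jn`: apply `DWH.menger` to the graph `H'` = `H` restricted to `E = X ∪ D ∪ Y` (`H'.Adj a b ↔ H.Adj a b ∧ a ∈ E ∧ b ∈ E`), `A = X`, `B = Y`. If `Z` meets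
all paths of `H'` from `X` to `Y` and `Z.card < n`: `h Z` gives `x`, `y` joined inside `E \ Z`; a path (`pth_of_cn` applied to the set of the vertices
joined to `x` inside `E \ Z`, see the proof of `DWH.av_iff`) avoids `Z` and is a path of `H'`: contradiction. A path of `H'` starting in `X` is inside `E`
(each of its vertices is the start or the end of an edge of `H'`, see the end of the proof of `DWH.link`), and is a path of `H` (`Pth.mono`).
`jn_of_lk`: one of the `n` disjoint paths avoids `Z` (otherwise `Z` has `≥ n` elements: choose an element of `Z ∩ P i` for each `i`, injective).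
`Lk.avoid`: restrict the family to `T` with an injection `Fin n' → T`; `P j ⊆ X ∪ D ∪ Y` and disjoint from `Z` gives `P j ⊆ X ∪ (D \ Z) ∪ Y`. -/

set_option autoImplicit false
set_option linter.unusedVariables false
set_option linter.unusedSectionVars false

namespace GRT

open SimpleGraph DWH

variable {W : Type} [Fintype W] [DecidableEq W] {H : SimpleGraph W}

/-- `x` and `y` are joined inside `A` -/
def Jn (H : SimpleGraph W) (A : Set W) (x y : W) : Prop :=
  x ∈ A ∧ Relation.ReflTransGen (Stp H A) x y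

/-- `P` is the vertex set of a path from `s` to `t` whose only vertex in `X` is `s`, whose only vertex in `Y` is `t`, and whose inner vertices
are in `D` -/
def XY (H : SimpleGraph W) (X Y D P : Finset W) (s t : W) : Prop :=
  Pth H P s t ∧ P ∩ X = {s} ∧ P ∩ Y = {t} ∧ P ⊆ X ∪ D ∪ Y

/-- `n` disjoint `X`-`Y` paths with inner vertices in `D` -/
def Lk (H : SimpleGraph W) (X Y D : Finset W) (n : ℕ) : Prop :=
  ∃ (P : Fin n → Finset W) (s t : Fin n → W), (∀ i, XY H X Y D (P i) (s i) (t i)) ∧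
    ∀ i j, i ≠ j → Disjoint (P i) (P j)

private theorem rtg_graph {H' : SimpleGraph W} {A : Set W}
    (hH : ∀ a b, a ∈ A → b ∈ A → H.Adj a b → H'.Adj a b) {x y : W}
    (h : Relation.ReflTransGen (Stp H A) x y) : Relation.ReflTransGen (Stp H' A) x y := by
  induction h with
  | refl => exact .refl
  | tail _ h2 ih => exact ih.tail ⟨hH _ _ h2.2.1 h2.2.2 h2.1, h2.2.1, h2.2.2⟩

theorem Jn.right {A : Set W} {x y : W} (h : Jn H A x y) : y ∈ A := by
  obtain ⟨h1, h2⟩ := h
  induction h2 with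
  | refl => exact h1
  | tail _ h3 _ => exact h3.2.2

theorem Jn.refl {A : Set W} {x : W} (h : x ∈ A) : Jn H A x x :=
  ⟨h, .refl⟩

theorem Jn.symm {A : Set W} {x y : W} (h : Jn H A x y) : Jn H A y x :=
  ⟨h.right, rtg_symm h.2⟩

theorem Jn.trans {A : Set W} {x y z : W} (h : Jn H A x y) (h' : Jn H A y z) : Jn H A x z :=
  ⟨h.1, h.2.trans h'.2⟩

theorem Jn.step {A : Set W} {x y z : W} (h : Jn H A x y) (h' : H.Adj y z) (hz : z ∈ A) :
    Jn H A x z :=
  ⟨h.1, h.2.tail ⟨h', h.right, hz⟩⟩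

theorem Jn.mono {A A' : Set W} (hA : A ⊆ A') {x y : W} (h : Jn H A x y) : Jn H A' x y :=
  ⟨hA h.1, rtg_mono hA h.2⟩

theorem Jn.mono_graph {H' : SimpleGraph W} (hH : H ≤ H') {A : Set W} {x y : W} (h : Jn H A x y) :
    Jn H' A x y :=
  ⟨h.1, rtg_graph (fun a b _ _ hab => hH hab) h.2⟩

theorem Jn.of_cn {S A : Set W} (hS : Cn H S) (hA : S ⊆ A) {x y : W} (hx : x ∈ S) (hy : y ∈ S) :
    Jn H A x y :=
  ⟨hA hx, rtg_mono hA (hS x hx y hy)⟩

/-- the first vertex in `G` -/
theorem Jn.exit {A G : Set W} {x y : W} (h : Jn H A x y) (hx : x ∉ G) (hy : y ∈ G) :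
    ∃ u w, Jn H {z | z ∈ A ∧ z ∉ G} x u ∧ H.Adj u w ∧ w ∈ A ∧ w ∈ G := by
  obtain ⟨h1, h2⟩ := h
  have key : ∀ y, Relation.ReflTransGen (Stp H A) x y →
      (Jn H {z | z ∈ A ∧ z ∉ G} x y) ∨
        ∃ u w, Jn H {z | z ∈ A ∧ z ∉ G} x u ∧ H.Adj u w ∧ w ∈ A ∧ w ∈ G := by
    intro y hy
    induction hy with
    | refl => exact Or.inl (Jn.refl ⟨h1, hx⟩)
    | @tail b c _ hst ih =>
      rcases ih with ih | ih
      · by_cases hc : c ∈ G
        · exact Or.inr ⟨b, c, ih, hst.1, hst.2.2, hc⟩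
        · exact Or.inl (ih.step hst.1 ⟨hst.2.2, hc⟩)
      · exact Or.inr ih
  rcases key y h2 with h3 | h3
  · exact absurd hy h3.right.2
  · exact h3

/-- the set of the vertices joined to `x` is connected -/
private theorem cn_jn_aux (H : SimpleGraph W) (A : Set W) (x : W) : Cn H {y | Jn H A x y} := by
  have key : ∀ w, Jn H A x w → Relation.ReflTransGen (Stp H {y | Jn H A x y}) x w := by
    rintro w ⟨h1, hw⟩
    induction hw with
    | refl => exact .refl
    | tail h3 h2 ih => exact ih.tail ⟨h2.1, ⟨h1, h3⟩, ⟨h1, h3.tail h2⟩⟩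
  intro a ha b hb
  exact (rtg_symm (key a ha)).trans (key b hb)

theorem Jn.pth {A : Set W} {x y : W} (h : Jn H A x y) :
    ∃ P : Finset W, Pth H P x y ∧ (P : Set W) ⊆ A := by
  obtain ⟨S, hS, hSD⟩ := pth_of_cn (cn_jn_aux H A x) (x := x) (y := y) (Jn.refl h.1) h
  exact ⟨S, hS, fun w hw => (hSD hw : Jn H A x w).right⟩

/-- the set of the vertices joined to `x` is connected -/
theorem cn_jn (H : SimpleGraph W) (A : Set W) (x : W) : Cn H {y | Jn H A x y} :=
  cn_jn_aux H A x

theorem XY.mono_graph {H' : SimpleGraph W} (hH : H ≤ H') {X Y D P : Finset W} {s t : W}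
    (h : XY H X Y D P s t) : XY H' X Y D P s t :=
  ⟨h.1.mono hH, h.2⟩

theorem Lk.mono_graph {H' : SimpleGraph W} (hH : H ≤ H') {X Y D : Finset W} {n : ℕ}
    (h : Lk H X Y D n) : Lk H' X Y D n := by
  obtain ⟨P, s, t, h1, h2⟩ := h
  exact ⟨P, s, t, fun i => (h1 i).mono_graph hH, h2⟩

theorem Lk.of_le {X Y D : Finset W} {n n' : ℕ} (hn : n' ≤ n) (h : Lk H X Y D n) :
    Lk H X Y D n' := by
  obtain ⟨P, s, t, h1, h2⟩ := h
  refine ⟨fun i => P (Fin.castLE hn i), fun i => s (Fin.castLE hn i),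
    fun i => t (Fin.castLE hn i), fun i => h1 _, fun i j hij => h2 _ _ ?_⟩
  intro h
  exact hij (Fin.castLE_injective hn h)

theorem Lk.avoid {X Y D : Finset W} {n : ℕ} (P : Fin n → Finset W) (s t : Fin n → W)
    (hP : ∀ i, XY H X Y D (P i) (s i) (t i)) (hd : ∀ i j, i ≠ j → Disjoint (P i) (P j))
    (T : Finset (Fin n)) (Z : Finset W) (hT : ∀ i ∈ T, Disjoint (P i) Z) (n' : ℕ)
    (hn : n' ≤ T.card) : Lk H X Y (D \ Z) n' := by
  obtain ⟨T', hT', hcard⟩ := Finset.exists_subset_card_eq hn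
  let e := T'.equivFinOfCardEq hcard
  refine ⟨fun i => P (e.symm i), fun i => s (e.symm i), fun i => t (e.symm i), ?_, ?_⟩
  · intro i
    have h1 := hP (e.symm i)
    refine ⟨h1.1, h1.2.1, h1.2.2.1, ?_⟩
    intro w hw
    have h2 := h1.2.2.2 hw
    have h3 : w ∉ Z := Finset.disjoint_left.1 (hT _ (hT' (e.symm i).2)) hw
    simp only [Finset.mem_union, Finset.mem_sdiff] at h2 ⊢
    tauto
  · intro i j hij
    refine hd _ _ ?_
    intro h
    exact hij (e.symm.injective (Subtype.ext h))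

/-- Menger's theorem -/
theorem lk_of_jn (H : SimpleGraph W) (X Y D : Finset W) (n : ℕ)
    (h : ∀ Z : Finset W, Z.card < n →
      ∃ x ∈ X, ∃ y ∈ Y, Jn H {w | w ∈ X ∪ D ∪ Y ∧ w ∉ Z} x y) : Lk H X Y D n := by
  classical
  let H' : SimpleGraph W :=
    { Adj := fun a b => H.Adj a b ∧ a ∈ X ∪ D ∪ Y ∧ b ∈ X ∪ D ∪ Y
      symm := ⟨fun a b hab => ⟨hab.1.symm, hab.2.2, hab.2.1⟩⟩
      loopless := ⟨fun a ha => H.loopless.irrefl a ha.1⟩ }
  have hle : H' ≤ H := fun a b hab => hab.1
  obtain ⟨P, s, t, hP, hPd⟩ := menger H' X Y n (by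
    intro Z hZ
    by_contra hcon
    push Not at hcon
    obtain ⟨x, hx, y, hy, hj⟩ := h Z hcon
    have hj' : Jn H' {w | w ∈ X ∪ D ∪ Y ∧ w ∉ Z} x y := by
      exact ⟨hj.1, rtg_graph (H' := H') (fun a b ha hb hab => ⟨hab, ha.1, hb.1⟩) hj.2⟩
    obtain ⟨Q, hQ, hQD⟩ := hj'.pth
    obtain ⟨z, hz, hzQ⟩ := hZ Q x y hQ hx hy
    exact (hQD hzQ).2 hz)
  refine ⟨P, s, t, fun i => ⟨(hP i).1.mono hle, (hP i).2.1, (hP i).2.2, ?_⟩, hPd⟩
  intro w hw
  by_cases hws : w = s i
  · have h1 : s i ∈ P i ∩ X := by rw [(hP i).2.1]; exact Finset.mem_singleton_self _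
    rw [hws]
    exact Finset.mem_union_left _ (Finset.mem_union_left _ (Finset.mem_inter.1 h1).2)
  · obtain ⟨z, _, hz⟩ := (hP i).1.cn.exists_adj (x := w) (y := s i) hw (hP i).1.left_mem hws
    exact hz.2.1

/-- the easy direction -/
theorem jn_of_lk {X Y D : Finset W} {n : ℕ} (h : Lk H X Y D n) (Z : Finset W) (hZ : Z.card < n) :
    ∃ x ∈ X, ∃ y ∈ Y, Jn H {w | w ∈ X ∪ D ∪ Y ∧ w ∉ Z} x y := by
  obtain ⟨P, s, t, hP, hPd⟩ := h
  have hex : ∃ i, ∀ z ∈ P i, z ∉ Z := by
    by_contra hcon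
    push Not at hcon
    choose z hz hzZ using hcon
    have hinj : Function.Injective z := by
      intro i j hij
      by_contra hne
      exact Finset.disjoint_left.1 (hPd i j hne) (hz i) (hij ▸ hz j)
    have h1 : (Finset.univ.image z).card = n := by
      rw [Finset.card_image_of_injective _ hinj, Finset.card_univ, Fintype.card_fin]
    have h2 : Finset.univ.image z ⊆ Z := by
      intro w hw
      obtain ⟨i, _, rfl⟩ := Finset.mem_image.1 hw
      exact hzZ i
    have h3 := Finset.card_le_card h2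
    omega
  obtain ⟨i, hi⟩ := hex
  have hs : s i ∈ P i ∩ X := by rw [(hP i).2.1]; exact Finset.mem_singleton_self _
  have ht : t i ∈ P i ∩ Y := by rw [(hP i).2.2.1]; exact Finset.mem_singleton_self _
  refine ⟨s i, (Finset.mem_inter.1 hs).2, t i, (Finset.mem_inter.1 ht).2, ?_⟩
  have hsub : ((P i : Finset W) : Set W) ⊆ {w | w ∈ X ∪ D ∪ Y ∧ w ∉ Z} :=
    fun w hw => ⟨(hP i).2.2.2 hw, hi w hw⟩
  exact Jn.of_cn (hP i).1.cn hsub (hP i).1.left_mem (hP i).1.right_mem

end GRT
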