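import Pool.Agent.GRT.Cnn

/-! # GRT RCS: an ordered crossing gives rows with connectors

`RC H r D`: `r` rows, each with `D` consecutive segments (positions `cut j n ≤ t < cut j (n + 1)`), and for every `n < D` and every pair of consecutive rows `i, j` (`i + 1 = j`) a
connector `con n i`: a path from the segment `n` of row `i` to the segment `n` of row `j`, which meets row `i` and row `j` only in its ends and no other row; connectors
with different `n` are disjoint.

PROOF of `rc_of_oc`. `col_tuple` gives `a n : Fin r → Fin ρ` for each `n : Fin d`. There are `ρ ^ r` functions `Fin r → Fin ρ`; `d ≥ D * ρ ^ r`, so there are `D` values of `n` with the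
same `a n = a` (pigeonhole), in increasing order `g : Fin D → Fin d` (`Finset.orderEmbOfFin`). Rows `O.row (a j)`, `cut j m = O.cut (a j) (g m)` for `m < D` and
`cut j m = (O.row (a j)).length` for `m ≥ D` (the column `g (D - 1)` meets the row at a position `t` with `O.cut (g (D - 1)) ≤ t < length`), connectors from
`col_tuple` for `g m`; their ends are in the segments `g m` (`blk_row`, `mem_sg`), and a position `t < length` with `O.cut (g m) ≤ t < O.cut (g m + 1)` satisfies
`cut m ≤ t < cut (m + 1)` (`cut_mono`). Disjointness: `blk_disj`. -/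


set_option autoImplicit false
set_option linter.unusedVariables false
set_option linter.unusedSectionVars false

namespace GRT

open SimpleGraph DWH

variable {W : Type} [Fintype W] [DecidableEq W]

/-- rows with connectors -/
structure RC (H : SimpleGraph W) (r D : ℕ) where
  row : Fin r → List W
  nodup : ∀ j, (row j).Nodup
  chain : ∀ j, (row j).IsChain H.Adj
  disj : ∀ i j, i ≠ j → ∀ x ∈ row i, x ∉ row j
  cut : Fin r → ℕ → ℕ
  cut_lt : ∀ j n, n < D → cut j n < cut j (n + 1)
  cut_le : ∀ j, cut j D ≤ (row j).length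
  con : Fin D → Fin r → Finset W
  x : Fin D → Fin r → W
  y : Fin D → Fin r → W
  pth : ∀ (n : Fin D) (i j : Fin r), (i : ℕ) + 1 = (j : ℕ) → Pth H (con n i) (x n i) (y n i)
  rowi : ∀ (n : Fin D) (i j : Fin r), (i : ℕ) + 1 = (j : ℕ) → con n i ∩ (row i).toFinset = {x n i}
  rowj : ∀ (n : Fin D) (i j : Fin r), (i : ℕ) + 1 = (j : ℕ) → con n i ∩ (row j).toFinset = {y n i}
  rowl : ∀ (n : Fin D) (i j l : Fin r), (i : ℕ) + 1 = (j : ℕ) → l ≠ i → l ≠ j → Disjoint (con n i) (row l).toFinset
  posx : ∀ (n : Fin D) (i j : Fin r), (i : ℕ) + 1 = (j : ℕ) → ∃ t, (row i)[t]? = some (x n i) ∧ cut i n ≤ t ∧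
    t < cut i (n + 1)
  posy : ∀ (n : Fin D) (i j : Fin r), (i : ℕ) + 1 = (j : ℕ) → ∃ t, (row j)[t]? = some (y n i) ∧ cut j n ≤ t ∧
    t < cut j (n + 1)
  cdisj : ∀ (m n : Fin D) (i i1 j j1 : Fin r), m ≠ n → (i : ℕ) + 1 = (j : ℕ) → (i1 : ℕ) + 1 = (j1 : ℕ) →
    Disjoint (con m i) (con n i1)

theorem rc_of_oc {H : SimpleGraph W} (r D ρ d : ℕ) (hρ : r * r < ρ) (hd : D * ρ ^ r ≤ d)
    (O : OC H ρ d) : Nonempty (RC H r D) := by
  classical
  rcases Nat.eq_zero_or_pos D with hD0 | hD0
  · subst hD0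
    have hrρ : r ≤ ρ := by
      rcases Nat.eq_zero_or_pos r with h0 | h0
      · omega
      · have := Nat.le_mul_of_pos_left r h0
        omega
    exact ⟨{
      row := fun j => O.row (Fin.castLE hrρ j)
      nodup := fun j => O.nodup _
      chain := fun j => O.chain _
      disj := fun i j hij x hx => O.disj _ _ (fun h => hij (Fin.castLE_injective hrρ h)) x hx
      cut := fun _ _ => 0
      cut_lt := fun j n hn => absurd hn (Nat.not_lt_zero _)
      cut_le := fun j => Nat.zero_le _
      con := fun n => n.elim0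
      x := fun n => n.elim0
      y := fun n => n.elim0
      pth := fun n => n.elim0
      rowi := fun n => n.elim0
      rowj := fun n => n.elim0
      rowl := fun n => n.elim0
      posx := fun n => n.elim0
      posy := fun n => n.elim0
      cdisj := fun n => n.elim0 }⟩
  have hρ0 : 0 < ρ := by omega
  have : Nonempty (Fin r → Fin ρ) := ⟨fun _ => ⟨0, hρ0⟩⟩
  have h0 : ∀ n : Fin d, ∃ a : Fin r → Fin ρ, Function.Injective a ∧
      ∃ (C : Fin r → Finset W) (x y : Fin r → W), ∀ i j : Fin r, (i : ℕ) + 1 = j →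
        Pth H (C i) (x i) (y i) ∧ C i ⊆ O.blk n ∧
        C i ∩ (O.row (a i)).toFinset = {x i} ∧ C i ∩ (O.row (a j)).toFinset = {y i} ∧
        ∀ l, l ≠ i → l ≠ j → Disjoint (C i) (O.row (a l)).toFinset := by
    intro n
    obtain ⟨a, h1, h2⟩ := O.col_tuple r hρ n
    have h4 : ∀ i : Fin r, ∃ (C : Finset W) (x y : W), ∀ j : Fin r, (i : ℕ) + 1 = j →
        Pth H C x y ∧ C ⊆ O.blk n ∧
        C ∩ (O.row (a i)).toFinset = {x} ∧ C ∩ (O.row (a j)).toFinset = {y} ∧
        ∀ l, l ≠ i → l ≠ j → Disjoint C (O.row (a l)).toFinset := by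
      intro i
      by_cases hi : (i : ℕ) + 1 < r
      · obtain ⟨C, x, y, h⟩ := h2 i ⟨(i : ℕ) + 1, hi⟩ rfl
        refine ⟨C, x, y, fun j hj => ?_⟩
        have : j = ⟨(i : ℕ) + 1, hi⟩ := Fin.ext hj.symm
        rw [this]
        exact h
      · obtain ⟨w, -, -⟩ := O.meet n ⟨0, hρ0⟩
        refine ⟨∅, w, w, fun j hj => absurd (hj ▸ j.2) hi⟩
    choose C x y h5 using h4
    exact ⟨a, h1, C, x, y, h5⟩
  choose a ha C x y hC using h0
  have hcard : Fintype.card (Fin r → Fin ρ) * D ≤ Fintype.card (Fin d) := by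
    rw [Fintype.card_fun, Fintype.card_fin, Fintype.card_fin, Fintype.card_fin, Nat.mul_comm]
    exact hd
  obtain ⟨b, hb⟩ := Fintype.exists_le_card_fiber_of_mul_le_card (f := a) hcard
  obtain ⟨S, hS, hSc⟩ := Finset.exists_subset_card_eq hb
  have hgS : ∀ m : Fin D, a (S.orderEmbOfFin hSc m) = b := by
    intro m
    have h1 := hS (Finset.orderEmbOfFin_mem S hSc m)
    exact (Finset.mem_filter.1 h1).2
  generalize hg : S.orderEmbOfFin hSc = g at hgS
  have hgm : ∀ m n : Fin D, m < n → (g m : ℕ) + 1 ≤ (g n : ℕ) := by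
    intro m n hmn
    have : g m < g n := (g.lt_iff_lt).2 hmn
    exact this
  have hbinj : Function.Injective b := by
    have := ha (g ⟨0, hD0⟩)
    rwa [hgS] at this
  let cu : Fin r → ℕ → ℕ := fun j m => if h : m < D then O.cut (b j) (g ⟨m, h⟩) else (O.row (b j)).length
  have hcu1 : ∀ j m (h : m < D), cu j m = O.cut (b j) (g ⟨m, h⟩) := fun j m h => dif_pos h
  have hcu2 : ∀ j m, ¬ m < D → cu j m = (O.row (b j)).length := fun j m h => dif_neg h
  have hpos : ∀ (j : Fin r) (n : Fin D) (t : ℕ) (w : W), (O.row (b j))[t]? = some w →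
      O.cut (b j) (g n) ≤ t → t < O.cut (b j) ((g n : ℕ) + 1) →
      cu j n ≤ t ∧ t < cu j (n + 1) := by
    intro j n t w h1 h2 h3
    refine ⟨by rw [hcu1 j n n.2]; exact h2, ?_⟩
    by_cases h4 : (n : ℕ) + 1 < D
    · rw [hcu1 j _ h4]
      have h5 := hgm n ⟨(n : ℕ) + 1, h4⟩ (by rw [Fin.lt_def]; simp)
      have h6 := O.cut_mono (b j) h5 (le_of_lt (g ⟨(n : ℕ) + 1, h4⟩).2)
      omega
    · rw [hcu2 j _ h4]
      have := (List.getElem?_eq_some_iff.1 h1).1
      exact this
  have hcut : ∀ (j : Fin r) (n : ℕ), n < D → cu j n < cu j (n + 1) := by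
    intro j n hn
    obtain ⟨w, hw, hwr⟩ := O.meet (g ⟨n, hn⟩) (b j)
    obtain ⟨t, ht⟩ := List.mem_iff_getElem?.1 hwr
    have h1 := O.seg (g ⟨n, hn⟩) (b j) t w ht hw
    have h2 := hpos j ⟨n, hn⟩ t w ht h1.1 h1.2
    have h3 : cu j n ≤ t := h2.1
    have h4 : t < cu j (n + 1) := h2.2
    omega
  have key : ∀ (n : Fin D) (i j : Fin r), (i : ℕ) + 1 = (j : ℕ) →
      Pth H (C (g n) i) (x (g n) i) (y (g n) i) ∧ C (g n) i ⊆ O.blk (g n) ∧
        C (g n) i ∩ (O.row (b i)).toFinset = {x (g n) i} ∧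
        C (g n) i ∩ (O.row (b j)).toFinset = {y (g n) i} ∧
        ∀ l, l ≠ i → l ≠ j → Disjoint (C (g n) i) (O.row (b l)).toFinset := by
    intro n i j hij
    have := hC (g n) i j hij
    rw [hgS n] at this
    exact this
  have hsg : ∀ (n : Fin D) (j : Fin r) (w : W), w ∈ O.blk (g n) → w ∈ O.row (b j) →
      ∃ t, (O.row (b j))[t]? = some w ∧ cu j n ≤ t ∧ t < cu j (n + 1) := by
    intro n j w h1 h2
    obtain ⟨t, h3, h4, h5⟩ := (O.mem_sg (b j) (g n) w).1 (O.blk_row (g n) (b j) w h1 h2)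
    exact ⟨t, h3, hpos j n t w h3 h4 h5⟩
  exact ⟨{
    row := fun j => O.row (b j)
    nodup := fun j => O.nodup _
    chain := fun j => O.chain _
    disj := fun i j hij x hx => O.disj _ _ (fun h => hij (hbinj h)) x hx
    cut := cu
    cut_lt := fun j n hn => hcut j n hn
    cut_le := fun j => (hcu2 j D (lt_irrefl D)).le
    con := fun n i => C (g n) i
    x := fun n i => x (g n) i
    y := fun n i => y (g n) i
    pth := fun n i j hij => (key n i j hij).1
    rowi := fun n i j hij => (key n i j hij).2.2.1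
    rowj := fun n i j hij => (key n i j hij).2.2.2.1
    rowl := fun n i j l hij h1 h2 => (key n i j hij).2.2.2.2 l h1 h2
    posx := fun n i j hij => by
      have h1 := key n i j hij
      have h2 : x (g n) i ∈ C (g n) i ∩ (O.row (b i)).toFinset := by
        rw [h1.2.2.1]; exact Finset.mem_singleton_self _
      rw [Finset.mem_inter, List.mem_toFinset] at h2
      exact hsg n i _ (h1.2.1 h2.1) h2.2
    posy := fun n i j hij => by
      have h1 := key n i j hij
      have h2 : y (g n) i ∈ C (g n) i ∩ (O.row (b j)).toFinset := by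
        rw [h1.2.2.2.1]; exact Finset.mem_singleton_self _
      rw [Finset.mem_inter, List.mem_toFinset] at h2
      exact hsg n j _ (h1.2.1 h2.1) h2.2
    cdisj := fun m n i i1 j j1 hmn h1 h2 => by
      have h3 : g m ≠ g n := fun h => hmn (g.injective h)
      exact (O.blk_disj h3).mono (key m i j h1).2.1 (key n i1 j1 h2).2.1 }⟩

end GRT
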