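import Pool.Agent.GRT.Lkd

/-! # GRT SEL: a path linked to a bramble and a least separator

`Lnk H 𝓑 P h`: no set with fewer than `h` elements separates `P` from the bramble.

PROOF of `exists_sel`. `DWH.cover_path`: a path list `L` meeting all elements of `𝓑` (`𝓑` is nonempty: `Ordge 𝓑 (2 h)` with `2 h > 0`). `Lnk H 𝓑 L.toFinset h`:
if `B` avoids `Z`, take `p = b ∈ B ∩ L`. Let `k` be the least number with `Lnk H 𝓑 (L.take k).toFinset h` (`Nat.find`). `k ≠ 0`, because `Lnk` fails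
for the empty set (`Z = ∅`, any `B ∈ 𝓑`, `h ≥ 1`). So `L.take k = L.take (k - 1) ++ [v]` (or the same list; then the conclusion is the same) and `Lnk`
fails for `L.take (k - 1)`: there are `Z` with `Z.card < h` and `B ∈ 𝓑` avoiding `Z` with no `p ∈ L.take (k - 1)` joined to an element of `B`
inside the complement of `Z`. Put `S = insert v Z`, `S.card ≤ h < 2 h`, so there is `B₀ ∈ 𝓑` avoiding `S`. For `p ∈ L.take k` and `b₀ ∈ B₀`: not
`Jn H Sᶜ p b₀`: `p = v` is in `S`; otherwise `p ∈ L.take (k - 1)`, and `Jn H Zᶜ p b₀`; as `B` and `B₀` are connected, avoid `Z` and touch, `b₀` is joined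
to an element of `B` inside `Zᶜ`: contradiction. Finally `S.card = h`: if `S.card < h` then `Lnk` of `L.take k` (for `S` and `B₀`) gives a
contradiction. `l = L.take k` is a path list (`List.Nodup.sublist`, `List.IsChain.take`). -/

set_option autoImplicit false
set_option linter.unusedVariables false
set_option linter.unusedSectionVars false

namespace GRT

open SimpleGraph DWH

variable {W : Type} [Fintype W] [DecidableEq W]

/-- no set with fewer than `h` elements separates `P` from the bramble -/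
def Lnk (H : SimpleGraph W) (𝓑 : Set (Set W)) (P : Finset W) (h : ℕ) : Prop :=
  ∀ Z : Finset W, Z.card < h → ∀ B ∈ 𝓑, (∀ x ∈ Z, x ∉ B) →
    ∃ p ∈ P, ∃ b ∈ B, Jn H {w | w ∉ Z} p b

theorem exists_sel (H : SimpleGraph W) (𝓑 : Set (Set W)) (hB : Brm H 𝓑) (h : ℕ) (h1 : 1 ≤ h)
    (hN : Ordge 𝓑 (2 * h)) :
    ∃ (l : List W) (S : Finset W) (B₀ : Set W), l.Nodup ∧ l.IsChain H.Adj ∧
      Lnk H 𝓑 l.toFinset h ∧ S.card = h ∧ B₀ ∈ 𝓑 ∧ (∀ x ∈ S, x ∉ B₀) ∧
      ∀ p ∈ l, ∀ b ∈ B₀, ¬ Jn H {w | w ∉ S} p b := by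
  classical
  have hne : 𝓑.Nonempty := by
    by_contra hc
    rw [Set.not_nonempty_iff_eq_empty] at hc
    have h2 := hN ∅ (by
      intro B hB'
      rw [hc] at hB'
      exact absurd hB' (Set.notMem_empty B))
    rw [Finset.card_empty] at h2
    omega
  obtain ⟨L, hLn, hLc, hLU, hLB⟩ := cover_path H 𝓑 hB hne
  have hL : Lnk H 𝓑 L.toFinset h := by
    intro Z hZ B hB1 hZB
    obtain ⟨x, hx, hxB⟩ := hLB B hB1
    exact ⟨x, List.mem_toFinset.2 hx, x, hxB, Jn.refl (fun hxZ => hZB x hxZ hxB)⟩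
  have hex : ∃ k, Lnk H 𝓑 (L.take k).toFinset h :=
    ⟨L.length, by rw [List.take_length]; exact hL⟩
  obtain ⟨k, hk, hmin⟩ : ∃ k, Lnk H 𝓑 (L.take k).toFinset h ∧
      ∀ m < k, ¬ Lnk H 𝓑 (L.take m).toFinset h :=
    ⟨Nat.find hex, Nat.find_spec hex, fun m hm => Nat.find_min hex hm⟩
  obtain ⟨B1, hB1⟩ := hne
  cases k with
  | zero =>
    exfalso
    obtain ⟨p, hp, _⟩ := hk ∅ (by rw [Finset.card_empty]; omega) B1 hB1 (by simp)
    simp at hp
  | succ m =>
    have hm := hmin m (Nat.lt_succ_self m)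
    have hmL : m < L.length := by
      by_contra hc
      apply hm
      have e1 : L.take m = L := List.take_of_length_le (by omega)
      have e2 : L.take (m + 1) = L := List.take_of_length_le (by omega)
      rw [e2] at hk
      rw [e1]
      exact hk
    obtain ⟨Z, hZ, B, hBm, hZB, hno⟩ : ∃ Z : Finset W, Z.card < h ∧ ∃ B ∈ 𝓑, (∀ x ∈ Z, x ∉ B) ∧
        ∀ p ∈ (L.take m).toFinset, ∀ b ∈ B, ¬ Jn H {w | w ∉ Z} p b := by
      by_contra hc
      apply hm
      intro Z hZ B hBm hZB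
      by_contra hc2
      apply hc
      refine ⟨Z, hZ, B, hBm, hZB, ?_⟩
      intro p hp b hb hJ
      exact hc2 ⟨p, hp, b, hb, hJ⟩
    have htake : L.take (m + 1) = L.take m ++ [L[m]] := by
      rw [List.take_append_getElem hmL]
    have hScard : (insert (L[m]) Z).card ≤ h := by
      have := Finset.card_insert_le (L[m]) Z
      omega
    obtain ⟨B₀, hB₀, hSB₀⟩ : ∃ B₀ ∈ 𝓑, ∀ x ∈ insert (L[m]) Z, x ∉ B₀ := by
      by_contra hc
      have h2 := hN (insert (L[m]) Z) (by
        intro B' hB'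
        by_contra hc2
        apply hc
        refine ⟨B', hB', ?_⟩
        intro x hx hxB
        exact hc2 ⟨x, hx, hxB⟩)
      omega
    have hnoS : ∀ p ∈ L.take (m + 1), ∀ b ∈ B₀, ¬ Jn H {w | w ∉ insert (L[m]) Z} p b := by
      intro p hp b₀ hb₀ hJ
      rw [htake, List.mem_append, List.mem_singleton] at hp
      rcases hp with hp | hp
      · have hJ' : Jn H {w | w ∉ Z} p b₀ := by
          refine Jn.mono ?_ hJ
          intro w hw hwZ
          exact hw (Finset.mem_insert_of_mem hwZ)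
        obtain ⟨b, hb⟩ := (hB.1 B hBm).1
        have hcn : Cn H (B ∪ B₀) :=
          ((hB.1 B hBm).2).union_of_touch (hB.1 B₀ hB₀).2 (hB.2 B hBm B₀ hB₀)
        have hsub : B ∪ B₀ ⊆ {w | w ∉ Z} := by
          rintro w (hw | hw) hwZ
          · exact hZB w hwZ hw
          · exact hSB₀ w (Finset.mem_insert_of_mem hwZ) hw
        have hJ2 : Jn H {w | w ∉ Z} b₀ b := Jn.of_cn hcn hsub (Or.inr hb₀) (Or.inl hb)
        exact hno p (List.mem_toFinset.2 hp) b hb (hJ'.trans hJ2)
      · have h1 := hJ.1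
        rw [hp] at h1
        exact h1 (Finset.mem_insert_self _ _)
    refine ⟨L.take (m + 1), insert (L[m]) Z, B₀, hLn.sublist (List.take_sublist _ _),
      hLc.take _, hk, ?_, hB₀, hSB₀, hnoS⟩
    by_contra hc
    have hlt : (insert (L[m]) Z).card < h := lt_of_le_of_ne hScard hc
    obtain ⟨p, hp, b, hb, hJ⟩ := hk _ hlt B₀ hB₀ hSB₀
    exact hnoS p (List.mem_toFinset.1 hp) b hb hJ

end GRT
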