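import Pool.Agent.GRT.Oc

/-! # GRT YRA: marking the yardstick

`l` is a list (the yardstick), `V i` (`i : Fin K`) are disjoint sets which all meet it. For thresholds `m` (`d` of them): positions `τ 1 < ... < τ (d-1)` such
that the edge from `τ n` to `τ n + 1` enters a new set `V i`, and at least `m` sets `V i` meet the part between two marks.

PROOF. `c t = ` number of the `i` such that `V i` meets the positions `< t` (`c 0 = 0`, `c l.length = K`); `c (t + 1) ≤ c t + 1` because the vertex at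
position `t` is in at most one `V i`. For `1 ≤ n ≤ d - 1` let `τ n` be the least `t` with `c (t + 1) ≥ n * m + 1` (exists: `K ≥ d * m ≥ n * m + 1`, `m ≥ 1`);
then `c (τ n) = n * m` and `c (τ n + 1) = n * m + 1`: the vertex at position `τ n` is in a set `V i` which does not meet the positions `< τ n`. Since
`n * m ≥ 1`, `τ n ≥ 1`. In the statement `τ n` is the position AFTER the marked edge: the marked edge joins the positions `τ n - 1` and `τ n`. Between the
marks `n` and `n + 1`, i.e. at the positions `t` with `τ n ≤ t < τ (n + 1)` (with `τ 0 = 0`, `τ d = l.length`), at least `c (τ (n+1)) - c (τ n) ≥ m` sets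
`V i` meet the yardstick (for `n = d - 1`: `K - (d - 1) m ≥ m`). Given a set `S` with fewer than `m` elements one of these `V i` avoids `S` (the `V i` are
disjoint). Define `τ` on `ℕ` by these formulas. -/

set_option autoImplicit false
set_option linter.unusedVariables false
set_option linter.unusedSectionVars false

namespace GRT

open SimpleGraph DWH

variable {W : Type} [Fintype W] [DecidableEq W]

/-- the sets `V i` which meet the positions `< t` -/
private noncomputable def yraA (l : List W) (K : ℕ) (V : Fin K → Finset W) (t : ℕ) :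
    Finset (Fin K) := by
  classical
  exact Finset.univ.filter fun i => ∃ s, s < t ∧ ∃ x, l[s]? = some x ∧ x ∈ V i

private theorem yra_mem (l : List W) (K : ℕ) (V : Fin K → Finset W) (t : ℕ) (i : Fin K) :
    i ∈ yraA l K V t ↔ ∃ s, s < t ∧ ∃ x, l[s]? = some x ∧ x ∈ V i := by
  unfold yraA
  rw [Finset.mem_filter]
  exact ⟨fun h => h.2, fun h => ⟨Finset.mem_univ _, h⟩⟩

private theorem yra_mono (l : List W) (K : ℕ) (V : Fin K → Finset W) {t t' : ℕ} (h : t ≤ t') :
    yraA l K V t ⊆ yraA l K V t' := by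
  intro i hi
  rw [yra_mem] at hi ⊢
  obtain ⟨s, hs, hx⟩ := hi
  exact ⟨s, lt_of_lt_of_le hs h, hx⟩

private theorem yra_zero (l : List W) (K : ℕ) (V : Fin K → Finset W) :
    (yraA l K V 0).card = 0 := by
  rw [Finset.card_eq_zero, Finset.eq_empty_iff_forall_notMem]
  intro i hi
  rw [yra_mem] at hi
  obtain ⟨s, hs, -⟩ := hi
  exact absurd hs (Nat.not_lt_zero s)

private theorem yra_top (l : List W) (K : ℕ) (V : Fin K → Finset W)
    (hm : ∀ i, ∃ x ∈ V i, x ∈ l) : (yraA l K V l.length).card = K := by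
  have h : yraA l K V l.length = Finset.univ := by
    ext i
    rw [yra_mem]
    refine ⟨fun _ => Finset.mem_univ _, fun _ => ?_⟩
    obtain ⟨x, hx, hxl⟩ := hm i
    obtain ⟨s, hs, he⟩ := List.getElem_of_mem hxl
    exact ⟨s, hs, x, by rw [List.getElem?_eq_getElem hs, he], hx⟩
  rw [h, Finset.card_univ, Fintype.card_fin]

private theorem yra_none (l : List W) (K : ℕ) (V : Fin K → Finset W) {t : ℕ}
    (ht : l.length ≤ t) : yraA l K V (t + 1) = yraA l K V t := by
  refine Finset.Subset.antisymm ?_ (yra_mono l K V (Nat.le_succ t))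
  intro i hi
  rw [yra_mem] at hi ⊢
  obtain ⟨s, hs, x, hx, hxi⟩ := hi
  refine ⟨s, ?_, x, hx, hxi⟩
  have h1 : s < l.length := by
    by_contra hc
    rw [List.getElem?_eq_none (not_lt.1 hc)] at hx
    exact absurd hx (by simp)
  omega

private theorem yra_step (l : List W) (K : ℕ) (V : Fin K → Finset W)
    (hV : ∀ i j, i ≠ j → Disjoint (V i) (V j)) (t : ℕ) :
    (yraA l K V (t + 1)).card ≤ (yraA l K V t).card + 1 := by
  classical
  by_cases h : ∃ i0, ∃ x, l[t]? = some x ∧ x ∈ V i0
  · obtain ⟨i0, x, hx, hxi⟩ := h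
    refine le_trans (Finset.card_le_card (t := insert i0 (yraA l K V t)) ?_)
      (Finset.card_insert_le _ _)
    intro i hi
    rw [yra_mem] at hi
    obtain ⟨s, hs, y, hy, hyi⟩ := hi
    rcases Nat.lt_succ_iff_lt_or_eq.1 hs with h1 | h1
    · exact Finset.mem_insert_of_mem ((yra_mem l K V t i).2 ⟨s, h1, y, hy, hyi⟩)
    · subst h1
      rw [hx] at hy
      have hxy : x = y := Option.some.inj hy
      subst hxy
      by_cases hne : i = i0
      · rw [hne]
        exact Finset.mem_insert_self _ _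
      · exact absurd hxi (Finset.disjoint_left.1 (hV i i0 hne) hyi)
  · refine le_trans (Finset.card_le_card ?_) (Nat.le_succ _)
    intro i hi
    rw [yra_mem] at hi
    obtain ⟨s, hs, y, hy, hyi⟩ := hi
    rcases Nat.lt_succ_iff_lt_or_eq.1 hs with h1 | h1
    · exact (yra_mem l K V t i).2 ⟨s, h1, y, hy, hyi⟩
    · subst h1
      exact absurd ⟨i, y, hy, hyi⟩ h

/-- the position of the threshold `k` -/
private theorem yra_find (l : List W) (K : ℕ) (V : Fin K → Finset W)
    (hV : ∀ i j, i ≠ j → Disjoint (V i) (V j)) (hm : ∀ i, ∃ x ∈ V i, x ∈ l) (k : ℕ)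
    (hk1 : 1 ≤ k) (hk : k + 1 ≤ K) :
    ∃ t, 1 ≤ t ∧ t < l.length ∧ (yraA l K V t).card = k ∧ (yraA l K V (t + 1)).card = k + 1 := by
  classical
  have hex : ∃ t, k + 1 ≤ (yraA l K V (t + 1)).card := by
    refine ⟨l.length, ?_⟩
    have h1 := Finset.card_le_card (yra_mono l K V (Nat.le_succ l.length))
    rw [yra_top l K V hm] at h1
    exact hk.trans h1
  obtain ⟨t, ht, hmin⟩ : ∃ t, k + 1 ≤ (yraA l K V (t + 1)).card ∧
      ∀ s, s < t → ¬ k + 1 ≤ (yraA l K V (s + 1)).card :=
    ⟨Nat.find hex, Nat.find_spec hex, fun s hs => Nat.find_min hex hs⟩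
  have h2 : (yraA l K V t).card ≤ k := by
    rcases Nat.eq_zero_or_pos t with h0 | h0
    · rw [h0, yra_zero]
      exact Nat.zero_le _
    · have h3 := hmin (t - 1) (by omega)
      rw [show t - 1 + 1 = t by omega] at h3
      omega
  have h4 := yra_step l K V hV t
  have h5 : (yraA l K V t).card = k := by omega
  refine ⟨t, ?_, ?_, h5, by omega⟩
  · by_contra hc
    have h6 : t = 0 := by omega
    rw [h6, yra_zero] at h5
    omega
  · by_contra hc
    have h7 := congrArg Finset.card (yra_none l K V (not_lt.1 hc))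
    omega

theorem marks (l : List W) (hl : l.Nodup) (K : ℕ) (V : Fin K → Finset W)
    (hV : ∀ i j, i ≠ j → Disjoint (V i) (V j)) (hm : ∀ i, ∃ x ∈ V i, x ∈ l) (d m : ℕ)
    (hd : 1 ≤ d) (hm1 : 1 ≤ m) (hK : d * m ≤ K) :
    ∃ τ : ℕ → ℕ, τ 0 = 0 ∧ τ d = l.length ∧
      (∀ n, 1 ≤ n → n < d → 1 ≤ τ n ∧ τ n < l.length ∧ ∃ i, ∃ x ∈ V i, l[τ n]? = some x ∧
        ∀ t y, t < τ n → l[t]? = some y → y ∉ V i) ∧
      ∀ n, n < d → ∀ S : Finset W, S.card < m →
        ∃ i, Disjoint (V i) S ∧ ∃ t x, τ n ≤ t ∧ t < τ (n + 1) ∧ l[t]? = some x ∧ x ∈ V i := by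
  classical
  have hmk : ∀ n, 1 ≤ n → n < d → 1 ≤ n * m ∧ n * m + 1 ≤ K := by
    intro n h1 h2
    constructor
    · exact Nat.mul_pos h1 hm1
    · have h3 : (n + 1) * m ≤ d * m := Nat.mul_le_mul_right m h2
      have h4 : (n + 1) * m = n * m + m := Nat.succ_mul n m
      omega
  have hex : ∀ n, ∃ t, (n = 0 → t = 0) ∧ (n = d → t = l.length) ∧ (1 ≤ n → n < d →
      1 ≤ t ∧ t < l.length ∧ (yraA l K V t).card = n * m ∧
        (yraA l K V (t + 1)).card = n * m + 1) := by
    intro n
    by_cases h0 : n = 0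
    · exact ⟨0, fun _ => rfl, fun h => by omega, fun h => by omega⟩
    · by_cases hd' : n = d
      · exact ⟨l.length, fun h => absurd h h0, fun _ => rfl, fun _ h => by omega⟩
      · by_cases hlt : n < d
        · obtain ⟨t, ht⟩ := yra_find l K V hV hm (n * m) (hmk n (by omega) hlt).1
            (hmk n (by omega) hlt).2
          exact ⟨t, fun h => absurd h h0, fun h => absurd h hd', fun _ _ => ht⟩
        · exact ⟨0, fun _ => rfl, fun h => absurd h hd', fun _ h => absurd h hlt⟩
  choose τ hτ using hex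
  have hlow : ∀ n, n < d → (yraA l K V (τ n)).card = n * m := by
    intro n hn
    rcases Nat.eq_zero_or_pos n with h0 | h0
    · rw [(hτ n).1 h0, yra_zero, h0, Nat.zero_mul]
    · exact ((hτ n).2.2 h0 hn).2.2.1
  have hupp : ∀ n, n < d → (n + 1) * m ≤ (yraA l K V (τ (n + 1))).card := by
    intro n hn
    by_cases h1 : n + 1 = d
    · rw [(hτ (n + 1)).2.1 h1, yra_top l K V hm, h1]
      exact hK
    · exact ((hτ (n + 1)).2.2 (by omega) (by omega)).2.2.1.ge
  refine ⟨τ, (hτ 0).1 rfl, (hτ d).2.1 rfl, ?_, ?_⟩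
  · intro n h1 h2
    obtain ⟨ha, hb, hc, hc'⟩ := (hτ n).2.2 h1 h2
    refine ⟨ha, hb, ?_⟩
    have hne : ∃ i, i ∈ yraA l K V (τ n + 1) ∧ i ∉ yraA l K V (τ n) := by
      by_contra hcon
      have hsub : yraA l K V (τ n + 1) ⊆ yraA l K V (τ n) := by
        intro i hi
        by_contra hni
        exact hcon ⟨i, hi, hni⟩
      have := Finset.card_le_card hsub
      omega
    obtain ⟨i, hi, hni⟩ := hne
    obtain ⟨s, hs, x, hx, hxi⟩ := (yra_mem l K V _ i).1 hi
    have hsn : s = τ n := by
      by_contra hne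
      exact hni ((yra_mem l K V _ i).2 ⟨s, by omega, x, hx, hxi⟩)
    refine ⟨i, x, hxi, by rw [← hsn]; exact hx, ?_⟩
    intro t y ht hy hyi
    exact hni ((yra_mem l K V _ i).2 ⟨t, ht, y, hy, hyi⟩)
  · intro n hn S hS
    have hcard : m ≤ (yraA l K V (τ (n + 1)) \ yraA l K V (τ n)).card := by
      have h1 := Finset.le_card_sdiff (yraA l K V (τ n)) (yraA l K V (τ (n + 1)))
      have h2 := hlow n hn
      have h3 := hupp n hn
      have h4 : (n + 1) * m = n * m + m := Nat.succ_mul n m
      omega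
    have hgood : ∃ i ∈ yraA l K V (τ (n + 1)) \ yraA l K V (τ n), Disjoint (V i) S := by
      by_contra hcon
      have hall : ∀ i, ∃ x, i ∈ yraA l K V (τ (n + 1)) \ yraA l K V (τ n) → x ∈ V i ∧ x ∈ S := by
        intro i
        by_cases hi : i ∈ yraA l K V (τ (n + 1)) \ yraA l K V (τ n)
        · have h5 : ¬ Disjoint (V i) S := fun h => hcon ⟨i, hi, h⟩
          rw [Finset.not_disjoint_iff] at h5
          obtain ⟨x, hx⟩ := h5
          exact ⟨x, fun _ => hx⟩
        · obtain ⟨x, -, -⟩ := hm i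
          exact ⟨x, fun h => absurd h hi⟩
      choose f hf using hall
      have h6 : (yraA l K V (τ (n + 1)) \ yraA l K V (τ n)).card ≤ S.card := by
        refine Finset.card_le_card_of_injOn f (fun i hi => (hf i (Finset.mem_coe.1 hi)).2) ?_
        intro i hi j hj hij
        by_contra hne
        have h7 := (hf i (Finset.mem_coe.1 hi)).1
        have h8 := (hf j (Finset.mem_coe.1 hj)).1
        rw [← hij] at h8
        exact Finset.disjoint_left.1 (hV i j hne) h7 h8
      omega
    obtain ⟨i, hi, hdis⟩ := hgood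
    rw [Finset.mem_sdiff] at hi
    obtain ⟨s, hs, x, hx, hxi⟩ := (yra_mem l K V _ i).1 hi.1
    refine ⟨i, hdis, s, x, ?_, hs, hx, hxi⟩
    by_contra hlt
    exact hi.2 ((yra_mem l K V _ i).2 ⟨s, not_le.1 hlt, x, hx, hxi⟩)

end GRT
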