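import Pool.Agent.GRT.Yra

/-! # GRT YRB: one cut of the yardstick argument

Situation: `U` graph, `P j` (`j : Fin h`) disjoint `X`-`Y` paths of `U` with inner vertices in `D`; `Q` the list of the path `P q`; the edge of `Q` between
the positions `τ - 1` and `τ` (`1 ≤ τ`) is critical: `U` without this edge has no `h` disjoint `X`-`Y` paths.

PROOF of `cut_lemma`. Let `x, y` be the vertices of `Q` at the positions `τ - 1`, `τ`; `U' = dl U x y`. By `lk_of_jn` (contraposition) there is `Z` with
`Z.card < h` such that no vertex of `X` is joined to a vertex of `Y` inside `(X ∪ D ∪ Y) \ Z` in `U'`. The `h - 1` paths `P j`, `j ≠ q`, are paths of `U'` (they do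
not contain `x`), from `X` to `Y`, inside `X ∪ D ∪ Y`; so each of them meets `Z`. As they are disjoint and `Z.card ≤ h - 1`, `Z` has exactly one element on
each of them and no other element; in particular `Z` is disjoint from `P q`. (Map `j ≠ q` to a chosen element of `Z ∩ P j`: injective into `Z`, so
bijective.)
The two consequences: let `A` be a connected set of `F` (`F ≤ U` without the critical edge, so `F ≤ U'`), `A ⊆ D`, disjoint from `Z`.
(low) If `A` meets `Q` at a position `≥ τ`, then `A` does not meet `P j` at a position before the element of `Z`: otherwise go along `P j` from its first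
vertex (in `X`) to this vertex, inside `A` to `Q`, along `Q` to its last vertex (in `Y`): everything avoids `Z`, is inside `X ∪ D ∪ Y`, and does not use the
critical edge. (high) If `A` meets `Q` at a position `< τ`, then `A` does not meet `P j` at a position after the element of `Z`: go along `Q` from its
first vertex, inside `A`, along `P j` to its last vertex.
`L j` is the list of `P j` (nodup, chain of `U`, first vertex `s j ∈ X`, last vertex `t j ∈ Y`); `Q = L q`. -/

set_option autoImplicit false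
set_option linter.unusedVariables false
set_option linter.unusedSectionVars false

namespace GRT

open SimpleGraph DWH

variable {W : Type} [Fintype W] [DecidableEq W]

private theorem yrb_chain {U : SimpleGraph W} {l : List W} {x y : W} (hc : l.IsChain U.Adj)
    (h : x ∉ l ∨ y ∉ l) : l.IsChain (dl U x y).Adj := by
  refine List.IsChain.imp_of_mem_imp ?_ hc
  intro a b ha hb hab
  refine ⟨hab, ?_, ?_⟩
  · rintro ⟨rfl, rfl⟩
    rcases h with h | h
    · exact h ha
    · exact h hb
  · rintro ⟨rfl, rfl⟩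
    rcases h with h | h
    · exact h hb
    · exact h ha

private theorem yrb_seg {U : SimpleGraph W} {E : Set W} {l : List W} (hn : l.Nodup)
    (hc : l.IsChain U.Adj) {i r : ℕ} (hir : i ≤ r) {a b : W} (ha : l[i]? = some a)
    (hb : l[r]? = some b) (hE : ∀ t w, i ≤ t → t ≤ r → l[t]? = some w → w ∈ E) :
    Jn U E a b := by
  have hp := seg_pth (H := U) hn hc hir ha hb
  refine Jn.of_cn hp.cn ?_ hp.left_mem hp.right_mem
  intro w hw
  obtain ⟨t, h1, h2, h3⟩ := mem_seg.1 (Finset.mem_coe.1 hw)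
  exact hE t w h1 h2 h3

theorem cut_lemma (U F : SimpleGraph W) (hFU : F ≤ U) (X Y D : Finset W) (h : ℕ)
    (L : Fin h → List W) (s t : Fin h → W) (hL : ∀ j, PthL U (L j) (s j) (t j))
    (hXY : ∀ j, XY U X Y D (L j).toFinset (s j) (t j))
    (hdis : ∀ i j, i ≠ j → ∀ x ∈ L i, x ∉ L j) (q : Fin h) (τ : ℕ) (hτ : 1 ≤ τ) (x y : W)
    (hx : (L q)[τ - 1]? = some x) (hy : (L q)[τ]? = some y) (hF : ¬ F.Adj x y)
    (hmin : ¬ Lk (dl U x y) X Y D h) :
    ∃ (Z : Finset W) (c : Fin h → ℕ), Z.card < h ∧ (∀ w ∈ Z, w ∉ L q) ∧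
      (∀ j, j ≠ q → ∃ z ∈ Z, (L j)[c j]? = some z) ∧
      ∀ A : Finset W, A ⊆ D → Cn F (A : Set W) → Disjoint A Z →
        ((∃ r a, τ ≤ r ∧ (L q)[r]? = some a ∧ a ∈ A) →
          ∀ j, j ≠ q → ∀ r b, (L j)[r]? = some b → b ∈ A → c j ≤ r) ∧
        ((∃ r a, r < τ ∧ (L q)[r]? = some a ∧ a ∈ A) →
          ∀ j, j ≠ q → ∀ r b, (L j)[r]? = some b → b ∈ A → r < c j) := by
  classical
  have hsep : ∃ Z : Finset W, Z.card < h ∧ ∀ x' ∈ X, ∀ y' ∈ Y,
      ¬ Jn (dl U x y) {w | w ∈ X ∪ D ∪ Y ∧ w ∉ Z} x' y' := by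
    by_contra hcon
    refine hmin (lk_of_jn (dl U x y) X Y D h ?_)
    intro Z hZ
    by_contra hcon2
    refine hcon ⟨Z, hZ, fun x' hx' y' hy' hj => hcon2 ⟨x', hx', y', hy', hj⟩⟩
  obtain ⟨Z, hZc, hZ⟩ := hsep
  have hsX : ∀ j, s j ∈ X := by
    intro j
    have h1 : s j ∈ (L j).toFinset ∩ X := by rw [(hXY j).2.1]; exact Finset.mem_singleton_self _
    exact (Finset.mem_inter.1 h1).2
  have htY : ∀ j, t j ∈ Y := by
    intro j
    have h1 : t j ∈ (L j).toFinset ∩ Y := by
      rw [(hXY j).2.2.1]; exact Finset.mem_singleton_self _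
    exact (Finset.mem_inter.1 h1).2
  have hin : ∀ j w, w ∈ L j → w ∈ X ∪ D ∪ Y := fun j w hw =>
    (hXY j).2.2.2 (List.mem_toFinset.2 hw)
  have hxq : x ∈ L q := List.mem_of_getElem? hx
  have hyq : y ∈ L q := List.mem_of_getElem? hy
  have hch : ∀ j, j ≠ q → (L j).IsChain (dl U x y).Adj := by
    intro j hj
    exact yrb_chain (hL j).2.1 (Or.inl (hdis q j (Ne.symm hj) x hxq))
  -- first and last positions
  have hfirst : ∀ j, (L j)[0]? = some (s j) := by
    intro j
    have h1 := (hL j).2.2.1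
    rw [List.head?_eq_getElem?] at h1
    exact h1
  have hlen : ∀ j, 0 < (L j).length := by
    intro j
    obtain ⟨h1, -⟩ := List.getElem?_eq_some_iff.1 (hfirst j)
    exact h1
  have hlast : ∀ j, (L j)[(L j).length - 1]? = some (t j) := by
    intro j
    have h1 := (hL j).2.2.2
    rw [List.getLast?_eq_getElem?] at h1
    exact h1
  have hlt : ∀ j r b, (L j)[r]? = some b → r ≤ (L j).length - 1 := by
    intro j r b hb
    obtain ⟨h1, -⟩ := List.getElem?_eq_some_iff.1 hb
    omega
  -- the separator meets every other path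
  have hmeet : ∀ j, j ≠ q → ∃ z, z ∈ Z ∧ z ∈ L j := by
    intro j hj
    by_contra hcon
    refine hZ (s j) (hsX j) (t j) (htY j) ?_
    refine yrb_seg (hL j).1 (hch j hj) (Nat.zero_le _) (hfirst j) (hlast j) ?_
    intro k w _ _ hw
    have hwl : w ∈ L j := List.mem_of_getElem? hw
    exact ⟨hin j w hwl, fun hwZ => hcon ⟨w, hwZ, hwl⟩⟩
  have hz : ∀ j, ∃ z, j ≠ q → z ∈ Z ∧ z ∈ L j := by
    intro j
    by_cases hj : j = q
    · exact ⟨x, fun h => absurd hj h⟩
    · obtain ⟨z, hz⟩ := hmeet j hj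
      exact ⟨z, fun _ => hz⟩
  choose z hz using hz
  have hZeq : (Finset.univ.erase q).image z = Z := by
    refine Finset.eq_of_subset_of_card_le ?_ ?_
    · intro w hw
      obtain ⟨j, hj, rfl⟩ := Finset.mem_image.1 hw
      exact (hz j (Finset.ne_of_mem_erase hj)).1
    · rw [Finset.card_image_of_injOn, Finset.card_erase_of_mem (Finset.mem_univ q),
        Finset.card_univ, Fintype.card_fin]
      · omega
      · intro i hi j hj hij
        by_contra hne
        have hi' := Finset.ne_of_mem_erase (Finset.mem_coe.1 hi)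
        have hj' := Finset.ne_of_mem_erase (Finset.mem_coe.1 hj)
        have hij' : z i = z j := hij
        exact hdis i j hne (z i) (hz i hi').2 (hij' ▸ (hz j hj').2)
  have hZq : ∀ w ∈ Z, w ∉ L q := by
    intro w hw
    rw [← hZeq] at hw
    obtain ⟨j, hj, rfl⟩ := Finset.mem_image.1 hw
    exact hdis j q (Finset.ne_of_mem_erase hj) _ (hz j (Finset.ne_of_mem_erase hj)).2
  have huniq : ∀ j, j ≠ q → ∀ w ∈ Z, w ∈ L j → w = z j := by
    intro j hj w hw hwl
    rw [← hZeq] at hw
    obtain ⟨i, hi, rfl⟩ := Finset.mem_image.1 hw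
    by_cases hij : i = j
    · rw [hij]
    · exact absurd hwl (hdis i j hij _ (hz i (Finset.ne_of_mem_erase hi)).2)
  have hc : ∀ j, ∃ c : ℕ, j ≠ q → (L j)[c]? = some (z j) := by
    intro j
    by_cases hj : j = q
    · exact ⟨0, fun h => absurd hj h⟩
    · obtain ⟨c, hc⟩ := List.mem_iff_getElem?.1 (hz j hj).2
      exact ⟨c, fun _ => hc⟩
  choose c hc using hc
  have hpos : ∀ j, j ≠ q → ∀ k w, (L j)[k]? = some w → w ∈ Z → k = c j := by
    intro j hj k w hk hw
    have h1 := huniq j hj w hw (List.mem_of_getElem? hk)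
    rw [h1] at hk
    exact getElem?_nodup_inj (hL j).1 hk (hc j hj)
  refine ⟨Z, c, hZc, hZq, fun j hj => ⟨z j, (hz j hj).1, hc j hj⟩, ?_⟩
  intro A hAD hA hAZ
  have hAE : ∀ w ∈ A, w ∈ X ∪ D ∪ Y ∧ w ∉ Z := by
    intro w hw
    refine ⟨?_, Finset.disjoint_left.1 hAZ hw⟩
    exact Finset.mem_union_left _ (Finset.mem_union_right _ (hAD hw))
  have hAU : Cn (dl U x y) (A : Set W) := by
    intro a ha b hb
    have h0 := hA a ha b hb
    induction h0 with
    | refl => exact Relation.ReflTransGen.refl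
    | tail _ h2 ih =>
      refine (ih h2.2.1).tail ⟨⟨hFU h2.1, ?_, ?_⟩, h2.2⟩
      · rintro ⟨rfl, rfl⟩
        exact hF h2.1
      · rintro ⟨rfl, rfl⟩
        exact hF h2.1.symm
  have hAj : ∀ a b, a ∈ A → b ∈ A → Jn (dl U x y) {w | w ∈ X ∪ D ∪ Y ∧ w ∉ Z} a b := by
    intro a b ha hb
    exact Jn.of_cn hAU (fun w hw => hAE w (Finset.mem_coe.1 hw)) ha hb
  have hxl2 : x ∉ (L q).drop τ := by
    intro hxd
    obtain ⟨k, hk⟩ := List.mem_iff_getElem?.1 hxd
    rw [List.getElem?_drop] at hk
    have := getElem?_nodup_inj (hL q).1 hk hx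
    omega
  have hyl1 : y ∉ (L q).take τ := by
    intro hyd
    obtain ⟨k, hk⟩ := List.mem_iff_getElem?.1 hyd
    rw [List.getElem?_take] at hk
    split_ifs at hk with hlt'
    have := getElem?_nodup_inj (hL q).1 hk hy
    omega
  constructor
  · rintro ⟨r, a, hr, hra, haA⟩ j hj r' b hb hbA
    by_contra hlt1
    have hlt2 : r' < c j := not_le.1 hlt1
    refine hZ (s j) (hsX j) (t q) (htY q) ?_
    have h1 : Jn (dl U x y) {w | w ∈ X ∪ D ∪ Y ∧ w ∉ Z} (s j) b := by
      refine yrb_seg (hL j).1 (hch j hj) (Nat.zero_le _) (hfirst j) hb ?_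
      intro k w _ hk2 hw
      refine ⟨hin j w (List.mem_of_getElem? hw), fun hwZ => ?_⟩
      have := hpos j hj k w hw hwZ
      omega
    have h2 := hAj b a hbA haA
    have h3 : Jn (dl U x y) {w | w ∈ X ∪ D ∪ Y ∧ w ∉ Z} a (t q) := by
      have hn2 : ((L q).drop τ).Nodup := (hL q).1.sublist (List.drop_sublist _ _)
      have hc2 : ((L q).drop τ).IsChain (dl U x y).Adj :=
        yrb_chain ((hL q).2.1.drop τ) (Or.inl hxl2)
      have hle := hlt q r a hra
      refine yrb_seg (i := r - τ) (r := (L q).length - 1 - τ) hn2 hc2 (by omega) ?_ ?_ ?_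
      · rw [List.getElem?_drop, show τ + (r - τ) = r by omega]
        exact hra
      · rw [List.getElem?_drop, show τ + ((L q).length - 1 - τ) = (L q).length - 1 by omega]
        exact hlast q
      · intro k w _ _ hw
        rw [List.getElem?_drop] at hw
        have hwl : w ∈ L q := List.mem_of_getElem? hw
        exact ⟨hin q w hwl, fun hwZ => hZq w hwZ hwl⟩
    exact (h1.trans h2).trans h3
  · rintro ⟨r, a, hr, hra, haA⟩ j hj r' b hb hbA
    by_contra hlt1
    have hne : r' ≠ c j := by
      intro he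
      rw [he, hc j hj] at hb
      have hbz : z j = b := Option.some.inj hb
      exact (hAE b hbA).2 (hbz ▸ (hz j hj).1)
    have hlt2 : c j < r' := by omega
    refine hZ (s q) (hsX q) (t j) (htY j) ?_
    have h1 : Jn (dl U x y) {w | w ∈ X ∪ D ∪ Y ∧ w ∉ Z} (s q) a := by
      have hn1 : ((L q).take τ).Nodup := (hL q).1.sublist (List.take_sublist _ _)
      have hc1 : ((L q).take τ).IsChain (dl U x y).Adj :=
        yrb_chain ((hL q).2.1.take τ) (Or.inr hyl1)
      refine yrb_seg (i := 0) (r := r) hn1 hc1 (Nat.zero_le _) ?_ ?_ ?_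
      · rw [List.getElem?_take, if_pos (by omega)]
        exact hfirst q
      · rw [List.getElem?_take, if_pos hr]
        exact hra
      · intro k w _ hk2 hw
        rw [List.getElem?_take, if_pos (by omega)] at hw
        have hwl : w ∈ L q := List.mem_of_getElem? hw
        exact ⟨hin q w hwl, fun hwZ => hZq w hwZ hwl⟩
    have h2 := hAj a b haA hbA
    have h3 : Jn (dl U x y) {w | w ∈ X ∪ D ∪ Y ∧ w ∉ Z} b (t j) := by
      refine yrb_seg (hL j).1 (hch j hj) (hlt j r' b hb) hb (hlast j) ?_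
      intro k w hk1 _ hw
      refine ⟨hin j w (List.mem_of_getElem? hw), fun hwZ => ?_⟩
      have := hpos j hj k w hw hwZ
      omega
    exact (h1.trans h2).trans h3

end GRT
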