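import Pool.Agent.GRT.Yrb

/-! # GRT YRD: the yardstick argument

PROOF of `yardstick`. Lists: `P j = (L j).toFinset` (definition of `Pth`), `L j` a path list from `s j` to `t j`. `Q = L q`. `marks` for `l = Q`, `m = d * h`
(`m ≥ 1`: `h ≥ 1` since `q : Fin h`, `d ≥ 1`) gives `τ`. For `1 ≤ n < d`: let `x_n, y_n` be the vertices of `Q` at `τ n - 1`, `τ n`. `U.Adj x_n y_n` (chain). It is not an
edge of `F`: `y_n ∈ V i` for an `i` such that `V i` does not meet the positions `< τ n`; if `F.Adj x_n y_n` then `x_n ∈ V i` (`hVF`, symmetric). So `hmin` and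
`cut_lemma` give `Z n`, `c n : Fin h → ℕ`. Let `S` be the union of the `Z n`, `1 ≤ n < d`: `S.card ≤ (d - 1) (h - 1) < d h`. For `n < d`, `marks` gives an index `v n`
with `V (v n)` disjoint from `S`, meeting `Q` at a position in `[τ n, τ (n + 1))`. Put `cut j 0 = 0`, `cut j n = c n (f j)` for `1 ≤ n < d`, `cut j d = (L (f j)).length`.
For the element `b ∈ V (v n)` at the position `r` of `L (f j)`: if `n ≥ 1`, (low) for the mark `n` gives `cut j n ≤ r` (`V (v n)` meets `Q` at a position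
`≥ τ n`); if `n + 1 < d`, (high) for the mark `n + 1` gives `r < cut j (n + 1)` (`V (v n)` meets `Q` at a position `< τ (n + 1)`). So the ordered crossing with rows
`L (f j)` and columns `col n = V (v n)` (`n : Fin d`) satisfies `seg`; `meet` is `hmeet`. `v` is injective: if `v m = v n` with `m < n`, an element of
`V (v m)` on the row `f 0` (if `ρ ≥ 1`; there is one by `hmeet`) is at a position `< cut (m + 1)` and `≥ cut n`; `cut` of `m + 1 ≤ n`: monotonicity follows from
`meet` and `seg` for the columns in between. If `ρ = 0`: the marks on `Q`: choose `cdisj` differently, see below. To avoid the case distinction `ρ ≥ 1` is assumed. -/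

set_option autoImplicit false
set_option linter.unusedVariables false
set_option linter.unusedSectionVars false

namespace GRT

open SimpleGraph DWH

variable {W : Type} [Fintype W] [DecidableEq W]

theorem yardstick (U F : SimpleGraph W) (hFU : F ≤ U) (X Y D : Finset W) (h : ℕ)
    (P : Fin h → Finset W) (s t : Fin h → W) (hP : ∀ j, XY U X Y D (P j) (s j) (t j))
    (hdis : ∀ i j, i ≠ j → Disjoint (P i) (P j)) (K : ℕ) (V : Fin K → Finset W)
    (hV : ∀ i, V i ⊆ D) (hVd : ∀ i j, i ≠ j → Disjoint (V i) (V j))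
    (hVc : ∀ i, Cn F (V i : Set W)) (hVF : ∀ i x y, x ∈ V i → F.Adj x y → y ∈ V i)
    (hmin : ∀ x y, U.Adj x y → ¬ F.Adj x y → ¬ Lk (dl U x y) X Y D h)
    (q : Fin h) (ρ : ℕ) (hρ : 1 ≤ ρ) (f : Fin ρ → Fin h) (hf : Function.Injective f)
    (hfq : ∀ j, f j ≠ q) (hmeet : ∀ i j, ∃ x ∈ V i, x ∈ P (f j))
    (hmq : ∀ i, ∃ x ∈ V i, x ∈ P q) (d : ℕ) (hd : 1 ≤ d) (hK : d * (d * h) ≤ K) :
    Nonempty (OC U ρ d) := by
  classical
  have hh : 1 ≤ h := by have := q.2; omega
  have hm1 : 1 ≤ d * h := Nat.mul_pos hd hh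
  -- the lists
  have hex : ∀ j, ∃ l : List W, PthL U l (s j) (t j) ∧ l.toFinset = P j := fun j => (hP j).1
  choose L hL hLP using hex
  have hmem : ∀ j x, x ∈ L j ↔ x ∈ P j := by
    intro j x
    rw [← hLP j, List.mem_toFinset]
  have hXY : ∀ j, XY U X Y D (L j).toFinset (s j) (t j) := by
    intro j
    rw [hLP j]
    exact hP j
  have hdisL : ∀ i j, i ≠ j → ∀ x ∈ L i, x ∉ L j := by
    intro i j hij x hx hx'
    exact Finset.disjoint_left.1 (hdis i j hij) ((hmem i x).1 hx) ((hmem j x).1 hx')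
  obtain ⟨τ, hτ0, hτd, hτ1, hτ2⟩ := marks (L q) (hL q).1 K V hVd
    (fun i => by
      obtain ⟨x, hx, hxq⟩ := hmq i
      exact ⟨x, hx, (hmem q x).2 hxq⟩) d (d * h) hd hm1 hK
  -- the cuts
  have hcut : ∀ n, ∃ (Z : Finset W) (c : Fin h → ℕ), 1 ≤ n → n < d → Z.card < h ∧
      ∀ A : Finset W, A ⊆ D → Cn F (A : Set W) → Disjoint A Z →
        ((∃ r a, τ n ≤ r ∧ (L q)[r]? = some a ∧ a ∈ A) →
          ∀ j, j ≠ q → ∀ r b, (L j)[r]? = some b → b ∈ A → c j ≤ r) ∧
        ((∃ r a, r < τ n ∧ (L q)[r]? = some a ∧ a ∈ A) →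
          ∀ j, j ≠ q → ∀ r b, (L j)[r]? = some b → b ∈ A → r < c j) := by
    intro n
    by_cases hn : 1 ≤ n ∧ n < d
    · obtain ⟨h1, h2, i, y, hyi, hy, hbef⟩ := hτ1 n hn.1 hn.2
      have hlt : τ n - 1 < (L q).length := by omega
      have hx : (L q)[τ n - 1]? = some ((L q)[τ n - 1]) := List.getElem?_eq_getElem hlt
      have hadj : U.Adj ((L q)[τ n - 1]) y := by
        have h3 := (hL q).2.1
        rw [List.isChain_iff_getElem] at h3
        have h4 := h3 (τ n - 1) (by omega)
        have h5 : (L q)[τ n - 1 + 1]? = some y := by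
          rw [show τ n - 1 + 1 = τ n by omega]; exact hy
        rw [List.getElem?_eq_some_iff] at h5
        obtain ⟨h6, h7⟩ := h5
        rw [h7] at h4
        exact h4
      have hnF : ¬ F.Adj ((L q)[τ n - 1]) y := by
        intro hF
        exact hbef (τ n - 1) _ (by omega) hx (hVF i y _ hyi hF.symm)
      obtain ⟨Z, c, hZc, -, -, hA⟩ := cut_lemma U F hFU X Y D h L s t hL hXY hdisL q (τ n) h1 _ y
        hx hy hnF (hmin _ y hadj hnF)
      exact ⟨Z, c, fun _ _ => ⟨hZc, hA⟩⟩
    · exact ⟨∅, fun _ => 0, fun h1 h2 => absurd ⟨h1, h2⟩ hn⟩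
  choose Z c hZ using hcut
  -- the separators together
  have hS : ((Finset.Ico 1 d).biUnion Z).card < d * h := by
    have h1 : ((Finset.Ico 1 d).biUnion Z).card ≤ (Finset.Ico 1 d).card * h := by
      refine Finset.card_biUnion_le_card_mul _ _ _ ?_
      intro n hn
      rw [Finset.mem_Ico] at hn
      exact (hZ n hn.1 hn.2).1.le
    rw [Nat.card_Ico] at h1
    have h2 : (d - 1) * h < d * h := Nat.mul_lt_mul_of_pos_right (by omega) hh
    omega
  have hv : ∀ n, ∃ i : Fin K, n < d → Disjoint (V i) ((Finset.Ico 1 d).biUnion Z) ∧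
      ∃ r x, τ n ≤ r ∧ r < τ (n + 1) ∧ (L q)[r]? = some x ∧ x ∈ V i := by
    intro n
    by_cases hn : n < d
    · obtain ⟨i, hi⟩ := hτ2 n hn _ hS
      exact ⟨i, fun _ => hi⟩
    · obtain ⟨i, -⟩ := hτ2 0 hd _ hS
      exact ⟨i, fun h => absurd h hn⟩
  choose v hv using hv
  have hdz : ∀ n, n < d → ∀ n', 1 ≤ n' → n' < d → Disjoint (V (v n)) (Z n') := by
    intro n hn n' h1 h2
    refine Finset.disjoint_of_subset_right ?_ (hv n hn).1
    exact Finset.subset_biUnion_of_mem Z (Finset.mem_Ico.2 ⟨h1, h2⟩)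
  let cut : Fin ρ → ℕ → ℕ := fun j n =>
    if n = 0 then 0 else if n < d then c n (f j) else (L (f j)).length
  have hseg : ∀ n, n < d → ∀ (j : Fin ρ) (r : ℕ) (b : W), (L (f j))[r]? = some b → b ∈ V (v n) →
      cut j n ≤ r ∧ r < cut j (n + 1) := by
    intro n hn j r b hb hbV
    obtain ⟨-, r0, x0, hr1, hr2, hx0, hxV⟩ := hv n hn
    constructor
    · by_cases h0 : n = 0
      · simp [cut, h0]
      · simp only [cut, if_neg h0, if_pos hn]
        exact ((hZ n (by omega) hn).2 (V (v n)) (hV _) (hVc _) (hdz n hn n (by omega) hn)).1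
          ⟨r0, x0, hr1, hx0, hxV⟩ (f j) (hfq j) r b hb hbV
    · have h0 : ¬ (n + 1 = 0) := by omega
      by_cases h1 : n + 1 < d
      · simp only [cut, if_neg h0, if_pos h1]
        exact ((hZ (n + 1) (by omega) h1).2 (V (v n)) (hV _) (hVc _)
          (hdz n hn (n + 1) (by omega) h1)).2 ⟨r0, x0, hr2, hx0, hxV⟩ (f j) (hfq j) r b hb hbV
      · simp only [cut, if_neg h0, if_neg h1]
        rw [List.getElem?_eq_some_iff] at hb
        exact hb.1
  have hmt : ∀ (n : ℕ) (j : Fin ρ), ∃ (r : ℕ) (b : W), (L (f j))[r]? = some b ∧ b ∈ V (v n) := by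
    intro n j
    obtain ⟨b, hbV, hbP⟩ := hmeet (v n) j
    obtain ⟨r, hr⟩ := List.mem_iff_getElem?.1 ((hmem (f j) b).2 hbP)
    exact ⟨r, b, hr, hbV⟩
  have hmono : ∀ j, ∀ k m, m + k < d → cut j m ≤ cut j (m + k) := by
    intro j k
    induction k with
    | zero => intro m _; exact le_refl _
    | succ k ih =>
      intro m hmk
      have h1 := ih m (by omega)
      obtain ⟨r, b, hr, hb⟩ := hmt (m + k) j
      have h2 := hseg (m + k) (by omega) j r b hr hb
      have h3 : m + (k + 1) = m + k + 1 := by omega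
      rw [h3]
      omega
  have hinj : ∀ m n, m < n → n < d → v m ≠ v n := by
    intro m n hmn hn heq
    let j0 : Fin ρ := ⟨0, hρ⟩
    obtain ⟨r, b, hr, hb⟩ := hmt m j0
    have h1 := hseg m (by omega) j0 r b hr hb
    rw [heq] at hb
    have h2 := hseg n hn j0 r b hr hb
    have h3 := hmono j0 (n - (m + 1)) (m + 1) (by omega)
    rw [show m + 1 + (n - (m + 1)) = n by omega] at h3
    omega
  refine ⟨{ row := fun j => L (f j)
            nodup := fun j => (hL (f j)).1
            chain := fun j => (hL (f j)).2.1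
            disj := fun i j hij x hx => hdisL (f i) (f j) (fun e => hij (hf e)) x hx
            col := fun n => V (v n)
            cn := ?_
            cdisj := ?_
            cut := cut
            meet := ?_
            seg := ?_ }⟩
  · intro n x hx y hy
    have h0 := hVc (v n) x hx y hy
    induction h0 with
    | refl => exact Relation.ReflTransGen.refl
    | tail _ h2 ih => exact (ih h2.2.1).tail ⟨hFU h2.1, h2.2⟩
  · intro m n hmn
    refine hVd _ _ ?_
    rcases lt_or_gt_of_ne (fun e => hmn (Fin.ext e) : (m : ℕ) ≠ n) with h1 | h1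
    · exact hinj m n h1 n.2
    · exact (hinj n m h1 m.2).symm
  · intro n j
    obtain ⟨r, b, hr, hb⟩ := hmt n j
    exact ⟨b, hb, List.mem_of_getElem? hr⟩
  · intro n j r x hr hx
    exact hseg n n.2 j r x hr hx

end GRT
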